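import Pool.Agent.R140.Ear.Check

set_option autoImplicit false

/-!
# Assembly of the example, for abstract lists
-/

open Finset

namespace Pool.Agent.R140.Ear

open Pool.Agent.Helper175.NS (Shell Flat Good exists_flat)

theorem good_dm {B : List ℕ} (hg : ∀ m ∈ B, GoodB (bl m)) {m : ℕ} (hm : m ∈ B) :
    Good KK psi col (dm m) := by
  obtain ⟨h1, h2, h3, h4, h5, h6⟩ := hg m hm
  have hb : ∀ n, n ∈ dm m → n ∈ bl m := fun n hn => mem_bl.2 hn
  exact ⟨by rw [card_dm, h1], fun u hu hKu => h2 u (hb u hu) hKu,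
    fun u hu v hv w hw ku kv kw => h3 u (hb u hu) ku v (hb v hv) kv w (hb w hw) kw,
    fun a ha ka u hu v hv ku kv => h4 a (hb a ha) ka u (hb u hu) ku v (hb v hv) kv,
    fun a ha b hb' ka kb u hu ku => h5 a (hb a ha) ka b (hb b hb') kb u (hb u hu) ku,
    fun a ha b hb' c hc ka kb kc => h6 a (hb a ha) ka b (hb b hb') kb c (hb c hc) kc⟩

theorem exists_pair {l : List ℕ} {u v : ℕ} (h : pairB l u v = true)
    (hu : u < 32) (hv : v < 32) : ∃ m ∈ l, u ∈ dm m ∧ v ∈ dm m := by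
  rw [pairB, List.any_eq_true] at h
  obtain ⟨m, hm, h⟩ := h
  rw [Bool.and_eq_true] at h
  exact ⟨m, hm, mem_dm.2 ⟨hu, h.1⟩, mem_dm.2 ⟨hv, h.2⟩⟩

/-- `B` has no relative shelling -/
theorem no_rel {B T I O : List ℕ} (hne : B ≠ []) (h4 : fourB B = true)
    (hb : bdryB B T = true) (hb2 : bdryB2 B T = true) (hi : intB B T I O = true)
    (he : eulB B I O = true) (hg : ∀ m ∈ B, GoodB (bl m))
    (p01 : pairB B 0 1 = true) (p67 : pairB B 6 7 = true) (p78 : pairB B 7 8 = true)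
    (p824 : pairB B 8 24 = true) (p246 : pairB B 24 6 = true)
    (L : List (Finset ℕ)) (hL : ∀ F, F ∈ L ↔ IsFacet (genC B hne) F) :
    ¬ RelShell (bdry 4 (genC B hne)) L := by
  intro hrel
  have hsh := reverse_genC hne h4 hb hb2 hi he L hL hrel
  have hmem : ∀ F, F ∈ L.reverse ↔ ∃ m ∈ B, dm m = F := by
    intro F
    rw [List.mem_reverse, hL]
    exact facet_genC hne h4
  obtain ⟨g, hg'⟩ := exists_flat KK psi col L.reverse hsh (by
    intro a b c d ha hb hc hd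
    unfold KK at ha hb hc hd
    omega) (by
    intro F hF
    obtain ⟨m, hm, rfl⟩ := (hmem F).1 hF
    exact good_dm hg hm) (by
    obtain ⟨m, hm, h0, h1⟩ := exists_pair (u := 0) (v := 1) p01 (by norm_num) (by norm_num)
    exact ⟨dm m, (hmem _).2 ⟨m, hm, rfl⟩, 0, h0, 1, h1, by decide, by decide, by decide⟩)
  have key : ∀ u v : ℕ, pairB B u v = true → u < 32 → v < 32 →
      ¬ KK u → ¬ KK v → g v = psi u v (g u) := by
    intro u v h hu hv ku kv
    obtain ⟨m, hm, h1, h2⟩ := exists_pair h hu hv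
    exact hg' (dm m) ((hmem _).2 ⟨m, hm, rfl⟩) u h1 v h2 ku kv
  exact loop_ok (g 6) (g 7) (g 8) (g 24)
    (key 6 7 p67 (by norm_num) (by norm_num) (by decide) (by decide))
    (key 7 8 p78 (by norm_num) (by norm_num) (by decide) (by decide))
    (key 8 24 p824 (by norm_num) (by norm_num) (by decide) (by decide))
    (key 24 6 p246 (by norm_num) (by norm_num) (by decide) (by decide))

/-- the vertices of the polytope -/
noncomputable def pt (v : ℕ) : Fin 4 → ℝ :=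
  ![((ptZ v).1 : ℝ), ((ptZ v).2.1 : ℝ), ((ptZ v).2.2.1 : ℝ), ((ptZ v).2.2.2 : ℝ)]

theorem lt_of_ltB {P : List ℕ} (h : ltB P = true) {m : ℕ} (hm : m ∈ P) : ∀ v ∈ dm m, v < 26 := by
  rw [ltB, List.all_eq_true] at h
  have h1 := h m hm
  rw [Nat.blt_eq] at h1
  intro v hv
  by_contra hcon
  push Not at hcon
  rw [mem_dm, Nat.testBit_eq_false_of_lt (h1.trans_le (Nat.pow_le_pow_right (by norm_num) hcon))] at hv
  exact absurd hv.2 (by simp)

theorem verts_P {P : List ℕ} (hne : P ≠ []) (hlt : ltB P = true) (hcov : covB P = true) :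
    verts (genC P hne) = range 26 := by
  ext v
  rw [verts_eq, mem_range]
  constructor
  · rintro ⟨F, hF, hv⟩
    obtain ⟨m, hm, hFm⟩ := mem_genC.1 hF
    exact lt_of_ltB hlt hm v (hFm hv)
  · intro hv
    rw [covB, List.all_eq_true] at hcov
    have h1 := hcov v (List.mem_range.2 hv)
    rw [List.any_eq_true] at h1
    obtain ⟨m, hm, h2⟩ := h1
    exact ⟨dm m, mem_genC.2 ⟨m, hm, Subset.refl _⟩, mem_dm.2 ⟨by omega, h2⟩⟩

/-- the functional -/
noncomputable def fn (e : ℤ × ℤ × ℤ × ℤ × ℤ) : (Fin 4 → ℝ) →ₗ[ℝ] ℝ :=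
  ((e.2.2.2.2 : ℝ)⁻¹) • ((e.1 : ℝ) • LinearMap.proj 0 + ((e.2.1 : ℝ) • LinearMap.proj 1 +
    ((e.2.2.1 : ℝ) • LinearMap.proj 2 + (e.2.2.2.1 : ℝ) • LinearMap.proj 3)))

theorem fn_pt (e : ℤ × ℤ × ℤ × ℤ × ℤ) (v : ℕ) :
    fn e (pt v) = (e.2.2.2.2 : ℝ)⁻¹ * (evZ e (ptZ v) : ℤ) := by
  unfold fn pt evZ
  simp
  ring

theorem exists_fn {P : List ℕ} {Q : List (ℕ × ℤ × ℤ × ℤ × ℤ × ℤ)} (hPQ : P = Q.map fun e => e.1)
    (hok : PCB Q = true) (hlt : ltB P = true)
    {F : Finset ℕ} (hF : F ∈ decL P) : ∃ ℓ : (Fin 4 → ℝ) →ₗ[ℝ] ℝ,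
    (∀ v ∈ F, ℓ (pt v) = 1) ∧ ∀ v ∈ range 26, v ∉ F → ℓ (pt v) < 1 := by
  obtain ⟨m, hm, rfl⟩ := mem_decL.1 hF
  have hm' := hm
  rw [hPQ] at hm'
  obtain ⟨e, he, rfl⟩ := List.mem_map.1 hm'
  have h := hok
  rw [PCB, List.all_eq_true] at h
  have h1 := h e he
  rw [Bool.and_eq_true, decide_eq_true_eq, List.all_eq_true] at h1
  obtain ⟨hpos, h2⟩ := h1
  have hpos' : (0 : ℝ) < (e.2.2.2.2.2 : ℝ) := by exact_mod_cast hpos
  refine ⟨fn e.2, fun v hv => ?_, fun v hv hvF => ?_⟩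
  · have hv26 := lt_of_ltB hlt hm v hv
    have h3 := h2 v (List.mem_range.2 hv26)
    rw [if_pos (mem_dm.1 hv).2, decide_eq_true_eq] at h3
    rw [fn_pt, h3]
    exact inv_mul_cancel₀ hpos'.ne'
  · rw [mem_range] at hv
    have h3 := h2 v (List.mem_range.2 hv)
    have h4 : ¬ (e.1.testBit v = true) := fun h => hvF (mem_dm.2 ⟨by omega, h⟩)
    rw [if_neg h4, decide_eq_true_eq] at h3
    rw [fn_pt, inv_mul_lt_iff₀ hpos', mul_one]
    exact_mod_cast h3

theorem cert_P {P : List ℕ} {Q : List (ℕ × ℤ × ℤ × ℤ × ℤ × ℤ)} (hPQ : P = Q.map fun e => e.1)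
    (hne : P ≠ []) (hok : PCB Q = true) (hlt : ltB P = true) (h4 : fourB P = true)
    (hnbr : nbrB P = true) : ∃ a, PolyCert 4 (range 26) (decL P) pt a := by
  classical
  have hex : ∀ F : Finset ℕ, ∃ ℓ : (Fin 4 → ℝ) →ₗ[ℝ] ℝ, F ∈ decL P →
      (∀ v ∈ F, ℓ (pt v) = 1) ∧ ∀ v ∈ range 26, v ∉ F → ℓ (pt v) < 1 := by
    intro F
    by_cases hF : F ∈ decL P
    · obtain ⟨ℓ, h⟩ := exists_fn hPQ hok hlt hF
      exact ⟨ℓ, fun _ => h⟩
    · exact ⟨0, fun h => absurd h hF⟩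
  choose a ha using hex
  refine ⟨a, fun F hF => (ha F hF).1, fun F hF => (ha F hF).2, ?_, ?_, ?_, ?_, by norm_num⟩
  · intro F hF j hj
    obtain ⟨m, hm, rfl⟩ := mem_decL.1 hF
    rw [nbrB, List.all_eq_true] at hnbr
    have h1 := hnbr m hm
    rw [List.all_eq_true] at h1
    have h2 := h1 j (mem_bl.2 hj)
    rw [List.any_eq_true] at h2
    obtain ⟨q, hq, h3⟩ := h2
    rw [Bool.and_eq_true, Bool.not_eq_true'] at h3
    have hx := xor_lt (fourB_spec h4 hm).2 hj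
    refine ⟨dm q, mem_decL.2 ⟨q, hq, rfl⟩, ?_, ?_⟩
    · rw [← dm_xor_two_pow hj]
      exact (sub_iff (hx.trans (by norm_num))).1 h3.1
    · intro h5
      rw [mem_dm, h3.2] at h5
      exact absurd h5.2 (by simp)
  · intro F hF
    obtain ⟨m, hm, rfl⟩ := mem_decL.1 hF
    exact (fourB_spec h4 hm).1
  · intro F hF v hv
    obtain ⟨m, hm, rfl⟩ := mem_decL.1 hF
    exact mem_range.2 (lt_of_ltB hlt hm v hv)
  · obtain ⟨m, t, h⟩ := List.exists_cons_of_ne_nil hne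
    exact ⟨dm m, mem_decL.2 ⟨m, by rw [h]; simp, rfl⟩⟩

theorem polytope_P {P : List ℕ} {Q : List (ℕ × ℤ × ℤ × ℤ × ℤ × ℤ)} (hPQ : P = Q.map fun e => e.1)
    (hne : P ≠ []) (hok : PCB Q = true) (hlt : ltB P = true) (h4 : fourB P = true)
    (hnbr : nbrB P = true) (hcov : covB P = true) : IsPolytopeBoundary 4 pt (genC P hne) := by
  obtain ⟨a, hc⟩ := cert_P hPQ hne hok hlt h4 hnbr
  apply hc.isPolytopeBoundary (genC P hne) _ (verts_P hne hlt hcov)
  intro G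
  rw [mem_genC]
  constructor
  · rintro ⟨m, hm, h⟩
    exact ⟨dm m, mem_decL.2 ⟨m, hm, rfl⟩, h⟩
  · rintro ⟨F, hF, h⟩
    obtain ⟨m, hm, rfl⟩ := mem_decL.1 hF
    exact ⟨m, hm, h⟩

theorem setup_of {B T P : List ℕ} (hB : B ≠ []) (hP : P ≠ []) (B4 : fourB B = true)
    (P4 : fourB P = true) (hb : bdryB B T = true) (hb2 : bdryB2 B T = true)
    (hind : indB B T = true) (hsub : subB B P = true) (hlt : ltB P = true)
    (hcov : covB P = true) : Setup 4 26 (genC P hP) (genC B hB) where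
  sub := by
    intro F hF
    obtain ⟨m, hm, h⟩ := mem_genC.1 hF
    rw [subB, List.all_eq_true] at hsub
    have h2 := hsub m hm
    rw [List.any_eq_true] at h2
    obtain ⟨q, hq, h3⟩ := h2
    rw [Nat.beq_eq] at h3
    exact mem_genC.2 ⟨q, hq, h3 ▸ h⟩
  lt := by
    intro F hF v hv
    have : v ∈ verts (genC P hP) := verts_eq.2 ⟨F, hF, hv⟩
    rw [verts_P hP hlt hcov, mem_range] at this
    exact this
  pureP := pure_genC hP P4
  pureB := pure_genC hB B4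
  ind := ind_genC hB B4 hb hb2 hind

theorem B_ne_P {B P : List ℕ} (hB : B ≠ []) (hP : P ≠ []) (hlt : ltB P = true)
    (hcov : covB P = true) (h2 : (B.all fun m => !(m.testBit 2)) = true) :
    (genC B hB).faces ≠ (genC P hP).faces := by
  intro h
  have h1 : {2} ∈ (genC P hP).faces := by
    have h3 : (2 : ℕ) ∈ verts (genC P hP) := by rw [verts_P hP hlt hcov]; decide
    obtain ⟨F, hF, h4⟩ := verts_eq.1 h3
    exact (genC P hP).down F hF _ (singleton_subset_iff.2 h4)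
  rw [← h] at h1
  obtain ⟨m, hm, h5⟩ := mem_genC.1 h1
  rw [singleton_subset_iff, mem_dm] at h5
  rw [List.all_eq_true] at h2
  have h4 := h2 m hm
  rw [h5.2] at h4
  exact absurd h4 (by simp)

/-- **Main theorem**, for abstract lists. -/
theorem main_of {B T I O P : List ℕ} {Q : List (ℕ × ℤ × ℤ × ℤ × ℤ × ℤ)}
    (hPQ : P = Q.map fun e => e.1)
    (hB : B ≠ []) (hP : P ≠ []) (B4 : fourB B = true) (P4 : fourB P = true)
    (hb : bdryB B T = true) (hb2 : bdryB2 B T = true) (hind : indB B T = true)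
    (hi : intB B T I O = true) (he : eulB B I O = true) (hg : ∀ m ∈ B, GoodB (bl m))
    (p01 : pairB B 0 1 = true) (p67 : pairB B 6 7 = true) (p78 : pairB B 7 8 = true)
    (p824 : pairB B 8 24 = true) (p246 : pairB B 24 6 = true)
    (ms : List (ℕ × ℕ)) (t : ℕ) (ht : (bl t).length = 4) (hc : chainB ms B [t] = true)
    (hsub : subB B P = true) (hlt : ltB P = true) (hcov : covB P = true)
    (hok : PCB Q = true) (hnbr : nbrB P = true)
    (h2 : (B.all fun m => !(m.testBit 2)) = true) :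
    ∃ (X : Cplx) (m : ℕ) (E : ℕ → Cplx), PureDim 4 X ∧
    IsConvexEarDecomposition 4 X m E ∧ ¬ Shellable X := by
  obtain ⟨n, hn⟩ : ∃ n, (bdry 4 (genC B hB)).card < n := exists_gt _
  have hset := setup_of hB hP B4 P4 hb hb2 hind hsub hlt hcov
  exact ⟨tot 4 26 (genC P hP) (genC B hB) n, n + 1, Setup.ear 4 26 (genC P hP) (genC B hB),
    pureDim_of (hset.pure_tot n),
    hset.decomposition n (polytope_P hPQ hP hok hlt P4 hnbr hcov)
      (isBall_genC hB B4 ms t ht hc) (by norm_num) (B_ne_P hB hP hlt hcov h2),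
    hset.not_shellable (by norm_num) hn
      (no_rel hB B4 hb hb2 hi he hg p01 p67 p78 p824 p246)⟩

end Pool.Agent.R140.Ear
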