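import Pool.Agent.R140.Ear.Mask
import Pool.Agent.H933R3.Ball

set_option autoImplicit false

/-!
# Chains of stellar moves: realizations of mask lists
-/

open Finset

namespace Pool.Agent.R140.Ear

open Pool.Agent.Helper175.NS (Sp star mem_star star_homeo relabel_homeo)

/-- the family of sets of a list of masks -/
def decL (l : List ℕ) : Finset (Finset ℕ) := (l.map dm).toFinset

lemma mem_decL {l : List ℕ} {A : Finset ℕ} : A ∈ decL l ↔ ∃ m ∈ l, dm m = A := by
  rw [decL, List.mem_toFinset, List.mem_map]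

/-- the facets of the stellar subdivision at `ρ`, with the new vertex `31`, of facets containing
`ρ` -/
def stB (l : List ℕ) (ρ : ℕ) : List ℕ :=
  l.flatMap fun m => (bl ρ).map fun z => (m ^^^ 2 ^ z) ||| 2 ^ 31

/-- the facets after the move `ρ → ρ'`, of facets containing `ρ` -/
def mvB (l : List ℕ) (ρ ρ' : ℕ) : List ℕ :=
  (l.flatMap fun m => (bl ρ).map fun z => (m ||| ρ') ^^^ 2 ^ z).foldr
    (fun a t => if t.any fun b => Nat.beq a b then t else a :: t) []

def sameB (l l' : List ℕ) : Bool :=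
  l.all (fun m => l'.any fun b => Nat.beq m b) && l'.all (fun m => l.any fun b => Nat.beq m b)

/-- the list after the move -/
def nxt (l : List ℕ) (ρ ρ' : ℕ) : List ℕ :=
  (l.filter fun m => !(sub ρ m)) ++ mvB (l.filter fun m => sub ρ m) ρ ρ'

def okStep (l : List ℕ) (ρ ρ' : ℕ) : Bool :=
  sameB (stB (l.filter fun m => sub ρ m) ρ) (stB (mvB (l.filter fun m => sub ρ m) ρ ρ') ρ') &&
  ((l.filter fun m => !(sub ρ m)).all (fun m => !(sub ρ' m)) &&
  ((mvB (l.filter fun m => sub ρ m) ρ ρ').all (fun m => sub ρ' m && Nat.blt m (2 ^ 31)) &&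
  (Nat.blt ρ (2 ^ 31) && (Nat.blt ρ' (2 ^ 31) && (Nat.blt 0 ρ && Nat.blt 0 ρ')))))

def force {α : Type} (x : ℕ) (k : ℕ → α) : α := Nat.rec (k 0) (fun p _ => k (Nat.succ p)) x

lemma force_eq {α : Type} (x : ℕ) (k : ℕ → α) : force x k = k x := by
  cases x <;> rfl

def forceL {α : Type} : List ℕ → (List ℕ → α) → α
  | [], k => k []
  | a :: l, k => force a fun a' => forceL l fun l' => k (a' :: l')

lemma forceL_eq {α : Type} (l : List ℕ) : ∀ (k : List ℕ → α), forceL l k = k l := by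
  induction l with
  | nil => intro k; rfl
  | cons a l ih =>
    intro k
    rw [forceL, force_eq, ih]

def chainB : List (ℕ × ℕ) → List ℕ → List ℕ → Bool
  | [], l, t => sameB l t
  | r :: ms, l, t => okStep l r.1 r.2 && forceL (nxt l r.1 r.2) fun l' => chainB ms l' t

lemma decL_of_sameB {l l' : List ℕ} (h : sameB l l' = true) : decL l = decL l' := by
  simp only [sameB, Bool.and_eq_true, List.all_eq_true, List.any_eq_true, Nat.beq_eq] at h
  ext A
  rw [mem_decL, mem_decL]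
  constructor
  · rintro ⟨m, hm, rfl⟩
    obtain ⟨b, hb, rfl⟩ := h.1 m hm
    exact ⟨m, hb, rfl⟩
  · rintro ⟨m, hm, rfl⟩
    obtain ⟨b, hb, rfl⟩ := h.2 m hm
    exact ⟨m, hb, rfl⟩

lemma decL_append (l l' : List ℕ) : decL (l ++ l') = decL l ∪ decL l' := by
  ext A
  rw [mem_union, mem_decL, mem_decL, mem_decL]
  constructor
  · rintro ⟨m, hm, rfl⟩
    rcases List.mem_append.1 hm with h | h
    · exact Or.inl ⟨m, h, rfl⟩
    · exact Or.inr ⟨m, h, rfl⟩
  · rintro (⟨m, hm, rfl⟩ | ⟨m, hm, rfl⟩)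
    · exact ⟨m, List.mem_append_left _ hm, rfl⟩
    · exact ⟨m, List.mem_append_right _ hm, rfl⟩

/-- the stellar subdivision in terms of masks -/
lemma star_decL (l r : List ℕ) (ρ : ℕ) (hρ : ρ < 2 ^ 31) (hl : ∀ m ∈ l, sub ρ m = true)
    (hr : ∀ m ∈ r, sub ρ m = false) :
    star (decL (r ++ l)) (dm ρ) 31 = decL r ∪ decL (stB l ρ) := by
  have hρ32 : ρ < 2 ^ 32 := hρ.trans (by norm_num)
  ext A
  rw [mem_star, mem_union]
  constructor
  · rintro (⟨h1, h2⟩ | ⟨F, h1, h2, z, hz, rfl⟩)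
    · obtain ⟨m, hm, rfl⟩ := mem_decL.1 h1
      rcases List.mem_append.1 hm with h | h
      · exact Or.inl (mem_decL.2 ⟨m, h, rfl⟩)
      · exact absurd ((sub_iff hρ32).1 (hl m h)) h2
    · obtain ⟨m, hm, rfl⟩ := mem_decL.1 h1
      rcases List.mem_append.1 hm with h | h
      · have h3 := hr m h
        rw [← Bool.not_eq_true, sub_iff hρ32] at h3
        exact absurd h2 h3
      · right
        refine mem_decL.2 ⟨(m ^^^ 2 ^ z) ||| 2 ^ 31, ?_, ?_⟩
        · rw [stB, List.mem_flatMap]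
          exact ⟨m, h, List.mem_map.2 ⟨z, mem_bl.2 hz, rfl⟩⟩
        · rw [dm_lor_two_pow (by norm_num), dm_xor_two_pow (h2 hz)]
  · rintro (h | h)
    · obtain ⟨m, hm, rfl⟩ := mem_decL.1 h
      left
      refine ⟨mem_decL.2 ⟨m, List.mem_append_left _ hm, rfl⟩, ?_⟩
      have h3 := hr m hm
      rwa [← Bool.not_eq_true, sub_iff hρ32] at h3
    · obtain ⟨m', hm', rfl⟩ := mem_decL.1 h
      right
      rw [stB, List.mem_flatMap] at hm'
      obtain ⟨m, hm, h1⟩ := hm'
      obtain ⟨z, hz, rfl⟩ := List.mem_map.1 h1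
      have h2 := (sub_iff hρ32).1 (hl m hm)
      rw [mem_bl] at hz
      refine ⟨dm m, mem_decL.2 ⟨m, List.mem_append_right _ hm, rfl⟩, h2, z, hz, ?_⟩
      rw [dm_lor_two_pow (by norm_num), dm_xor_two_pow (h2 hz)]

lemma not_mem_31 {m : ℕ} (hm : m < 2 ^ 31) : 31 ∉ dm m := by
  rw [mem_dm]
  rintro ⟨_, h⟩
  rw [Nat.testBit_eq_false_of_lt hm] at h
  exact absurd h (by simp)

lemma dm_nonempty {m : ℕ} (hm : m < 2 ^ 31) (h0 : 0 < m) : (dm m).Nonempty := by
  rw [Finset.nonempty_iff_ne_empty]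
  intro h
  rw [← dm_zero] at h
  have := dm_inj (hm.trans (by norm_num)) (by norm_num) h
  omega

theorem step_homeo {l : List ℕ} {ρ ρ' : ℕ} (hl : ∀ m ∈ l, m < 2 ^ 31)
    (h : okStep l ρ ρ' = true) :
    (∀ m ∈ nxt l ρ ρ', m < 2 ^ 31) ∧ Nonempty (Sp (decL l) ≃ₜ Sp (decL (nxt l ρ ρ'))) := by
  simp only [okStep, Bool.and_eq_true, List.all_eq_true, Nat.blt_eq] at h
  obtain ⟨h1, h2, h3, h4, h5, h6, h7⟩ := h
  have hn : ∀ m ∈ nxt l ρ ρ', m < 2 ^ 31 := by
    intro m hm
    rw [nxt, List.mem_append, List.mem_filter] at hm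
    rcases hm with hm | hm
    · exact hl m hm.1
    · exact (h3 m hm).2
  refine ⟨hn, ?_⟩
  have e1 : decL l = decL ((l.filter fun m => !(sub ρ m)) ++ l.filter fun m => sub ρ m) := by
    ext A
    rw [mem_decL, mem_decL]
    constructor
    · rintro ⟨m, hm, rfl⟩
      refine ⟨m, ?_, rfl⟩
      rw [List.mem_append, List.mem_filter, List.mem_filter]
      cases sub ρ m
      · exact Or.inl ⟨hm, rfl⟩
      · exact Or.inr ⟨hm, rfl⟩
    · rintro ⟨m, hm, rfl⟩
      rw [List.mem_append, List.mem_filter, List.mem_filter] at hm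
      rcases hm with hm | hm
      · exact ⟨m, hm.1, rfl⟩
      · exact ⟨m, hm.1, rfl⟩
  have s1 := star_decL (l.filter fun m => sub ρ m) (l.filter fun m => !(sub ρ m)) ρ h4
    (fun m hm => (List.mem_filter.1 hm).2) (fun m hm => by
      have := (List.mem_filter.1 hm).2
      simpa using this)
  have s2 := star_decL (mvB (l.filter fun m => sub ρ m) ρ ρ') (l.filter fun m => !(sub ρ m)) ρ' h5
    (fun m hm => (h3 m hm).1) (fun m hm => by
      have := h2 m hm
      simpa using this)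
  rw [← e1] at s1
  have s3 : star (decL l) (dm ρ) 31 = star (decL (nxt l ρ ρ')) (dm ρ') 31 := by
    rw [s1, nxt, s2, decL_of_sameB h1]
  have hv : ∀ l : List ℕ, (∀ m ∈ l, m < 2 ^ 31) → ∀ F ∈ decL l, 31 ∉ F := by
    intro l hl F hF
    obtain ⟨m, hm, rfl⟩ := mem_decL.1 hF
    exact not_mem_31 (hl m hm)
  obtain ⟨f1⟩ := star_homeo (decL l) (dm ρ) 31 (dm_nonempty h4 h6) (hv l hl) (not_mem_31 h4)
  obtain ⟨f2⟩ := star_homeo (decL (nxt l ρ ρ')) (dm ρ') 31 (dm_nonempty h5 h7) (hv _ hn)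
    (not_mem_31 h5)
  rw [s3] at f1
  exact ⟨f1.symm.trans f2⟩

theorem chain_homeo (ms : List (ℕ × ℕ)) : ∀ (l t : List ℕ), (∀ m ∈ l, m < 2 ^ 31) →
    chainB ms l t = true → Nonempty (Sp (decL l) ≃ₜ Sp (decL t)) := by
  induction ms with
  | nil =>
    intro l t _ h
    rw [chainB] at h
    rw [decL_of_sameB h]
    exact ⟨Homeomorph.refl _⟩
  | cons r ms ih =>
    intro l t hl h
    rw [chainB, Bool.and_eq_true, forceL_eq] at h
    obtain ⟨h1, h2⟩ := h
    obtain ⟨h3, ⟨e1⟩⟩ := step_homeo hl h1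
    obtain ⟨e2⟩ := ih _ t h3 h2
    exact ⟨e1.trans e2⟩

/-- a simplex is a ball -/
theorem simplex_ball {A : Finset ℕ} {n : ℕ} (hA : A.card = n + 1) :
    Nonempty (Sp ({A} : Finset (Finset ℕ)) ≃ₜ
      Metric.closedBall (0 : EuclideanSpace ℝ (Fin n)) 1) := by
  classical
  obtain ⟨e1⟩ := Pool.Agent.H933R3.std_corner n
  obtain ⟨e2⟩ := Pool.Agent.H933R3.corner_ball n
  let e : A ≃ Fin (n + 1) := A.equivFinOfCardEq hA
  let f : ℕ → Fin (n + 1) := fun v => if h : v ∈ A then e ⟨v, h⟩ else 0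
  have hf : Set.InjOn f A := by
    intro v hv w hw h
    simp only [f] at h
    rw [dif_pos (Finset.mem_coe.1 hv), dif_pos (Finset.mem_coe.1 hw)] at h
    exact congrArg Subtype.val (e.injective h)
  have himg : ({A} : Finset (Finset ℕ)).image (fun F => F.image f) = {univ} := by
    rw [Finset.image_singleton]
    congr 1
    apply Finset.eq_univ_of_card
    rw [Finset.card_image_of_injOn hf, hA, Fintype.card_fin]
  obtain ⟨e3⟩ := relabel_homeo ({A} : Finset (Finset ℕ)) f A (by simp) hf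
  rw [himg] at e3
  exact ⟨(e3.symm.trans e1).trans e2⟩

/-- the realization of a mask list -/
lemma space_genC (l : List ℕ) (hne : l ≠ []) : space (genC l hne) = Sp (decL l) := by
  have h1 : (genC l hne).faces = (Pool.Agent.Helper175.NS.gen (decL l)).faces := by
    ext G
    rw [mem_genC, Pool.Agent.Helper175.NS.mem_gen]
    constructor
    · rintro ⟨m, hm, h⟩
      exact ⟨dm m, mem_decL.2 ⟨m, hm, rfl⟩, h⟩
    · rintro ⟨F, hF, h⟩
      obtain ⟨m, hm, rfl⟩ := mem_decL.1 hF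
      exact ⟨m, hm, h⟩
  rw [← Pool.Agent.Helper175.NS.space_gen]
  change Sp (genC l hne).faces = Sp _
  rw [h1]

theorem isBall_genC {l : List ℕ} (hne : l ≠ []) (h4 : fourB l = true) (ms : List (ℕ × ℕ)) (t : ℕ)
    (ht : (bl t).length = 4) (hc : chainB ms l [t] = true) : IsBall 3 (genC l hne) := by
  refine ⟨pureDim_of (pure_genC hne h4), ?_⟩
  rw [space_genC]
  obtain ⟨e1⟩ := chain_homeo ms l [t] (fun m hm => (fourB_spec h4 hm).2) hc
  have h1 : decL [t] = {dm t} := rfl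
  rw [h1] at e1
  obtain ⟨e2⟩ := simplex_ball (A := dm t) (n := 3) (by rw [card_dm, ht])
  exact ⟨e1.trans e2⟩

end Pool.Agent.R140.Ear
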