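import Pool.Agent.R140.Ear.Mask

set_option autoImplicit false

/-!
# Euler characteristics of the relative links; reversal of relative shellings, for mask lists
-/

open Finset

namespace Pool.Agent.R140.Ear

open Pool.Agent.Helper175.NS (Shell)

def nodupB : List ℕ → Bool
  | [] => true
  | a :: l => !(l.any fun b => Nat.beq a b) && nodupB l

lemma nodupB_spec : ∀ {l : List ℕ}, nodupB l = true → l.Nodup := by
  intro l
  induction l with
  | nil => intro _; exact List.nodup_nil
  | cons a l ih =>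
    intro h
    rw [nodupB, Bool.and_eq_true, Bool.not_eq_true', ← Bool.not_eq_true, List.any_eq_true] at h
    rw [List.nodup_cons]
    refine ⟨fun hm => h.1 ⟨a, hm, ?_⟩, ih h.2⟩
    rw [Nat.beq_eq]

/-- `ie` and `io` are the lists of the masks of the interior faces with an even and an odd number of
vertices -/
def intB (l t ie io : List ℕ) : Bool :=
  (l.all fun m => (sms (bl m)).all fun s =>
    (t.any fun r => sub s r) || ((ie.any fun r => Nat.beq s r) || io.any fun r => Nat.beq s r)) &&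
  ((ie.all fun s => (l.any fun m => sub s m) && (!(t.any fun r => sub s r) &&
    (Nat.beq ((bl s).length % 2) 0 && Nat.blt s (2 ^ 31)))) &&
  ((io.all fun s => (l.any fun m => sub s m) && (!(t.any fun r => sub s r) &&
    (Nat.beq ((bl s).length % 2) 1 && Nat.blt s (2 ^ 31)))) &&
  (nodupB ie && nodupB io)))

def eulB (l ie io : List ℕ) : Bool :=
  l.all fun m => (sms (bl m)).all fun s =>
    Nat.beq (ie.filter fun t => sub s t).length ((io.filter fun t => sub s t).length + 1)

theorem euler_genC {l t ie io : List ℕ} (hne : l ≠ []) (h4 : fourB l = true)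
    (hb : bdryB l t = true) (hb2 : bdryB2 l t = true) (hi : intB l t ie io = true)
    (he : eulB l ie io = true) (L : List (Finset ℕ)) (hL : ∀ F, F ∈ L ↔ ∃ m ∈ l, dm m = F)
    {F : Finset ℕ} (hF : F ∈ L) {σ : Finset ℕ} (hσ : σ ⊆ F) :
    ∑ τ ∈ relF (bdry 4 (genC l hne)) σ L, (-1 : ℤ) ^ τ.card = 1 := by
  classical
  obtain ⟨m, hm, rfl⟩ := (hL F).1 hF
  obtain ⟨s, hs, rfl, hs32⟩ := exists_mask hσ
  simp only [intB, Bool.and_eq_true, List.all_eq_true] at hi
  obtain ⟨h1, h2, h3, h5, h6⟩ := hi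
  have hndE := nodupB_spec h5
  have hndO := nodupB_spec h6
  rw [eulB, List.all_eq_true] at he
  have he1 := he m hm
  rw [List.all_eq_true] at he1
  have he2 := he1 s hs
  rw [Nat.beq_eq] at he2
  have hmemt : ∀ s : ℕ, s < 2 ^ 32 → ((t.any fun r => sub s r) = true ↔
      dm s ∈ bdry 4 (genC l hne)) := by
    intro s hs
    rw [List.any_eq_true, bdry_genC hne h4 hb hb2]
    constructor
    · rintro ⟨r, hr, h⟩
      exact ⟨r, hr, (sub_iff hs).1 h⟩
    · rintro ⟨r, hr, h⟩
      exact ⟨r, hr, (sub_iff hs).2 h⟩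
  have hE : ∀ u ∈ ie, dm u ∉ bdry 4 (genC l hne) ∧ (∃ m ∈ l, dm u ⊆ dm m) ∧
      (dm u).card % 2 = 0 ∧ u < 2 ^ 32 := by
    intro u hu
    have h := h2 u hu
    rw [Nat.beq_eq, Nat.blt_eq, Bool.not_eq_true', ← Bool.not_eq_true] at h
    obtain ⟨h7, h8, h9, h10⟩ := h
    have hu32 : u < 2 ^ 32 := h10.trans (by norm_num)
    rw [hmemt u hu32] at h8
    rw [List.any_eq_true] at h7
    obtain ⟨m, hm, h7⟩ := h7
    exact ⟨h8, ⟨m, hm, (sub_iff hu32).1 h7⟩, by rw [card_dm]; exact h9, hu32⟩
  have hO : ∀ u ∈ io, dm u ∉ bdry 4 (genC l hne) ∧ (∃ m ∈ l, dm u ⊆ dm m) ∧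
      (dm u).card % 2 = 1 ∧ u < 2 ^ 32 := by
    intro u hu
    have h := h3 u hu
    rw [Nat.beq_eq, Nat.blt_eq, Bool.not_eq_true', ← Bool.not_eq_true] at h
    obtain ⟨h7, h8, h9, h10⟩ := h
    have hu32 : u < 2 ^ 32 := h10.trans (by norm_num)
    rw [hmemt u hu32] at h8
    rw [List.any_eq_true] at h7
    obtain ⟨m, hm, h7⟩ := h7
    exact ⟨h8, ⟨m, hm, (sub_iff hu32).1 h7⟩, by rw [card_dm]; exact h9, hu32⟩
  have hrel : relF (bdry 4 (genC l hne)) (dm s) L =
      (ie.filter fun t => sub s t).toFinset.image dm ∪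
        (io.filter fun t => sub s t).toFinset.image dm := by
    ext τ
    rw [mem_relF, mem_union, mem_image, mem_image]
    simp only [List.mem_toFinset, List.mem_filter]
    constructor
    · rintro ⟨⟨G, hG, hτG⟩, h7, h8⟩
      obtain ⟨m', hm', rfl⟩ := (hL G).1 hG
      obtain ⟨u, hu, rfl, hu32⟩ := exists_mask hτG
      have h9 := h1 m' hm' u hu
      rw [Bool.or_eq_true, Bool.or_eq_true, hmemt u hu32] at h9
      rcases h9 with h9 | h9 | h9
      · exact absurd h9 h8
      · left
        rw [List.any_eq_true] at h9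
        obtain ⟨r, hr, h9⟩ := h9
        rw [Nat.beq_eq] at h9
        subst h9
        exact ⟨u, ⟨hr, (sub_iff hs32).2 h7⟩, rfl⟩
      · right
        rw [List.any_eq_true] at h9
        obtain ⟨r, hr, h9⟩ := h9
        rw [Nat.beq_eq] at h9
        subst h9
        exact ⟨u, ⟨hr, (sub_iff hs32).2 h7⟩, rfl⟩
    · rintro (⟨u, ⟨hu, h7⟩, rfl⟩ | ⟨u, ⟨hu, h7⟩, rfl⟩)
      · obtain ⟨h8, ⟨m', hm', h9⟩, h10, h11⟩ := hE u hu
        exact ⟨⟨dm m', (hL _).2 ⟨m', hm', rfl⟩, h9⟩, (sub_iff hs32).1 h7, h8⟩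
      · obtain ⟨h8, ⟨m', hm', h9⟩, h10, h11⟩ := hO u hu
        exact ⟨⟨dm m', (hL _).2 ⟨m', hm', rfl⟩, h9⟩, (sub_iff hs32).1 h7, h8⟩
  have hdisj : Disjoint ((ie.filter fun t => sub s t).toFinset.image dm)
      ((io.filter fun t => sub s t).toFinset.image dm) := by
    rw [disjoint_left]
    intro τ h7 h8
    rw [mem_image] at h7 h8
    obtain ⟨u, hu, rfl⟩ := h7
    obtain ⟨w, hw, hwu⟩ := h8
    rw [List.mem_toFinset, List.mem_filter] at hu hw
    have h9 := (hE u hu.1).2.2.1
    have h10 := (hO w hw.1).2.2.1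
    rw [hwu] at h10
    omega
  rw [hrel, sum_union hdisj]
  have hsE : ∑ τ ∈ (ie.filter fun t => sub s t).toFinset.image dm, (-1 : ℤ) ^ τ.card =
      (ie.filter fun t => sub s t).length := by
    rw [sum_congr rfl (g := fun _ => (1 : ℤ))]
    · rw [sum_const, nsmul_eq_mul, mul_one, card_image_of_injOn,
        List.toFinset_card_of_nodup (hndE.filter _)]
      intro u hu w hw h
      rw [mem_coe, List.mem_toFinset, List.mem_filter] at hu hw
      exact dm_inj (hE u hu.1).2.2.2 (hE w hw.1).2.2.2 h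
    · intro τ hτ
      rw [mem_image] at hτ
      obtain ⟨u, hu, rfl⟩ := hτ
      rw [List.mem_toFinset, List.mem_filter] at hu
      have h9 := (hE u hu.1).2.2.1
      exact Even.neg_one_pow (Nat.even_iff.2 h9)
  have hsO : ∑ τ ∈ (io.filter fun t => sub s t).toFinset.image dm, (-1 : ℤ) ^ τ.card =
      -((io.filter fun t => sub s t).length : ℤ) := by
    rw [sum_congr rfl (g := fun _ => (-1 : ℤ))]
    · rw [sum_const, nsmul_eq_mul, card_image_of_injOn,
        List.toFinset_card_of_nodup (hndO.filter _)]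
      · ring
      · intro u hu w hw h
        rw [mem_coe, List.mem_toFinset, List.mem_filter] at hu hw
        exact dm_inj (hO u hu.1).2.2.2 (hO w hw.1).2.2.2 h
    · intro τ hτ
      rw [mem_image] at hτ
      obtain ⟨u, hu, rfl⟩ := hτ
      rw [List.mem_toFinset, List.mem_filter] at hu
      have h9 := (hO u hu.1).2.2.1
      exact Odd.neg_one_pow (Nat.odd_iff.2 h9)
  rw [hsE, hsO, he2]
  push_cast
  ring

/-- the reversal of a relative shelling is a shelling -/
theorem reverse_genC {l t ie io : List ℕ} (hne : l ≠ []) (h4 : fourB l = true)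
    (hb : bdryB l t = true) (hb2 : bdryB2 l t = true) (hi : intB l t ie io = true)
    (he : eulB l ie io = true) (L : List (Finset ℕ))
    (hL : ∀ F, F ∈ L ↔ IsFacet (genC l hne) F) (hrel : RelShell (bdry 4 (genC l hne)) L) :
    Shell L.reverse := by
  classical
  have hL' : ∀ F, F ∈ L ↔ ∃ m ∈ l, dm m = F := fun F => by
    rw [hL, facet_genC hne h4]
  have hcard : ∀ F ∈ L, F.card = 4 := by
    intro F hF
    obtain ⟨m, hm, rfl⟩ := (hL' F).1 hF
    exact (fourB_spec h4 hm).1
  refine rel_reverse bdry_down (n := 4) L hrel hcard ?_ ?_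
  · intro F hF y hy
    by_contra hcon
    push Not at hcon
    obtain ⟨h1, h2⟩ := hcon
    apply h1
    have hFX : F ∈ (genC l hne).faces := ((hL F).1 hF).1
    have hR : F.erase y ∈ (genC l hne).faces := (genC l hne).down F hFX _ (erase_subset _ _)
    refine mem_bdry.2 ⟨hR, F.erase y, hR, Subset.refl _, ?_, ?_⟩
    · rw [card_erase_of_mem hy, hcard F hF]
    · rw [card_eq_one]
      refine ⟨F, ?_⟩
      ext G
      rw [mem_filter, mem_singleton]
      constructor
      · rintro ⟨h3, h5, h6⟩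
        by_contra hne'
        have hGL : G ∈ L := by
          rw [hL, isFacet_iff (pure_genC hne h4)]
          exact ⟨h3, h5⟩
        exact h2 G hGL hne' h6
      · rintro rfl
        exact ⟨hFX, hcard _ hF, erase_subset _ _⟩
  · intro F hF σ hσ
    rw [euler_genC hne h4 hb hb2 hi he L hL' hF hσ]
    norm_num

end Pool.Agent.R140.Ear
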