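import Pool.Agent.R140.Ear.Data
import Pool.Agent.R140.Ear.Euler
import Pool.Agent.R140.Ear.Chain

set_option autoImplicit false

/-!
# The example: the computations
-/

open Finset

namespace Pool.Agent.R140.Ear

/-! ### The ball -/

theorem BF_ne : BF ≠ [] := by decide

theorem BF_four : fourB BF = true := by decide +kernel
theorem BF_bdry : bdryB BF BT = true := by decide +kernel
theorem BF_bdry2 : bdryB2 BF BT = true := by decide +kernel
theorem BF_ind : indB BF BT = true := by decide +kernel
theorem BF_int : intB BF BT IE IO = true := by decide +kernel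
theorem BF_eul : eulB BF IE IO = true := by decide +kernel
theorem BF_chain : chainB moves BF [lastS] = true := by decide +kernel
theorem lastS_four : (bl lastS).length = 4 := by decide +kernel

/-! ### The transition functions -/

def psi (u v : ℕ) (c : Fin 3) : Fin 3 :=
  if u < 32 ∧ v < 32 then
    match tab.lookup (32 * u + v) with
    | some p => p c
    | none => c
  else c

def col (a u : ℕ) : Fin 3 := (ctab.lookup (32 * a + u)).getD 0

/-- the decidable form of the local conditions, on lists -/
def GoodB (s : List ℕ) : Prop :=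
  s.length = 4 ∧ (∀ u ∈ s, ¬ KK u → ∀ c, psi u u c = c) ∧
  (∀ u ∈ s, ¬ KK u → ∀ v ∈ s, ¬ KK v → ∀ w ∈ s, ¬ KK w → ∀ c, psi v w (psi u v c) = psi u w c) ∧
  (∀ a ∈ s, KK a → ∀ u ∈ s, ¬ KK u → ∀ v ∈ s, ¬ KK v → psi u v (col a u) = col a v) ∧
  (∀ a ∈ s, KK a → ∀ b ∈ s, KK b → ∀ u ∈ s, ¬ KK u → col a u = col b u) ∧
  (∀ a ∈ s, KK a → ∀ b ∈ s, KK b → ∀ c ∈ s, KK c → a = b ∨ a = c ∨ b = c)

instance (s : List ℕ) : Decidable (GoodB s) := by unfold GoodB; infer_instance

theorem good_all : ∀ m ∈ BF, GoodB (bl m) := by decide +kernel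

def pairB (l : List ℕ) (u v : ℕ) : Bool := l.any fun m => m.testBit u && m.testBit v

theorem pair01 : pairB BF 0 1 = true := by decide +kernel
theorem pair67 : pairB BF 6 7 = true := by decide +kernel
theorem pair78 : pairB BF 7 8 = true := by decide +kernel
theorem pair824 : pairB BF 8 24 = true := by decide +kernel
theorem pair246 : pairB BF 24 6 = true := by decide +kernel

theorem loop_ok : ∀ a6 a7 a8 a24 : Fin 3, a7 = psi 6 7 a6 → a8 = psi 7 8 a7 → a24 = psi 8 24 a8 →
    a6 = psi 24 6 a24 → False := by decide +kernel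

/-! ### The polytope -/

/-- the masks of the facets of the polytope -/
def PF : List ℕ := PC.map fun e => e.1

theorem PF_ne : PF ≠ [] := by decide

/-- the coordinates of the vertices -/
def ptZ (v : ℕ) : ℤ × ℤ × ℤ × ℤ := pts.getD v (0, 0, 0, 0)

/-- value of the functional -/
def evZ (e : ℤ × ℤ × ℤ × ℤ × ℤ) (q : ℤ × ℤ × ℤ × ℤ) : ℤ :=
  e.1 * q.1 + (e.2.1 * q.2.1 + (e.2.2.1 * q.2.2.1 + e.2.2.2.1 * q.2.2.2))

def PCB (l : List (ℕ × ℤ × ℤ × ℤ × ℤ × ℤ)) : Bool := l.all fun e => decide (0 < e.2.2.2.2.2) &&
  (List.range 26).all fun v =>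
    if e.1.testBit v then decide (evZ e.2 (ptZ v) = e.2.2.2.2.2)
    else decide (evZ e.2 (ptZ v) < e.2.2.2.2.2)

theorem PC_ok : PCB PC = true := by decide +kernel

theorem PF_four : fourB PF = true := by decide +kernel

def ltB (l : List ℕ) : Bool := l.all fun m => Nat.blt m (2 ^ 26)

theorem PF_lt : ltB PF = true := by decide +kernel

def covB (l : List ℕ) : Bool := (List.range 26).all fun v => l.any fun m => m.testBit v

theorem PF_cov : covB PF = true := by decide +kernel

def nbrB (l : List ℕ) : Bool := l.all fun m => (bl m).all fun j => l.any fun q =>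
    sub (m ^^^ 2 ^ j) q && !(q.testBit j)

theorem PF_nbr : nbrB PF = true := by decide +kernel

def subB (l l' : List ℕ) : Bool := l.all fun m => l'.any fun q => Nat.beq m q

theorem BF_sub : subB BF PF = true := by decide +kernel

theorem BF_two : (BF.all fun m => !(m.testBit 2)) = true := by decide +kernel

end Pool.Agent.R140.Ear
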