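import Mathlib

set_option autoImplicit false

/-!
# Convex ear decompositions and shellability: definitions
-/

open Finset

namespace Pool.Agent.R140.Ear

/-- Finite (abstract) simplicial complexes with vertices in `ℕ`; the empty set is a face. -/
structure Cplx where
  /-- the faces -/
  faces : Finset (Finset ℕ)
  empty_mem : ∅ ∈ faces
  down : ∀ F ∈ faces, ∀ G ⊆ F, G ∈ faces

/-- The set of vertices (the elements of the faces). -/
def verts (X : Cplx) : Finset ℕ := X.faces.sup id

/-- A facet is a maximal face. -/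
def IsFacet (X : Cplx) (F : Finset ℕ) : Prop := F ∈ X.faces ∧ ∀ G ∈ X.faces, F ⊆ G → G = F

/-- `X` is pure of dimension `d - 1`: all facets have `d` vertices. -/
def PureDim (d : ℕ) (X : Cplx) : Prop := ∀ F, IsFacet X F → F.card = d

/-- Shellability of a pure complex: the facets can be listed as `l` so that for every `i > 0` the
intersection of the complex of all faces of `l[i]` with the complex generated by the earlier facets
is pure of dimension `dim l[i] - 1`, that is, every face `G` of it lies in a face `H` of it with one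
vertex less than `l[i]`. -/
def Shellable (X : Cplx) : Prop :=
  ∃ l : List (Finset ℕ), l.Nodup ∧ (∀ F, F ∈ l ↔ IsFacet X F) ∧
    ∀ (i : ℕ) (hi : i < l.length), 0 < i →
      ∀ G : Finset ℕ, (G ⊆ l[i] ∧ ∃ (j : ℕ) (hj : j < i), G ⊆ l[j]) →
        ∃ H : Finset ℕ, (H ⊆ l[i] ∧ ∃ (j : ℕ) (hj : j < i), H ⊆ l[j]) ∧ G ⊆ H ∧
          H.card + 1 = (l[i]).card

/-- The faces of the boundary complex of a pure `(d-1)`-dimensional complex `X` (a ball in all
uses): the faces contained in a face with `d - 1` vertices which lies in exactly one facet. -/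
def bdry (d : ℕ) (X : Cplx) : Finset (Finset ℕ) :=
  X.faces.filter fun G => ∃ R ∈ X.faces, G ⊆ R ∧ R.card + 1 = d ∧
    (X.faces.filter fun F => F.card = d ∧ R ⊆ F).card = 1

/-- Complexes are isomorphic if a bijection between the vertex sets identifies the faces. -/
def Iso (X Y : Cplx) : Prop :=
  ∃ φ : ℕ → ℕ, Set.BijOn φ (verts X) (verts Y) ∧
    ∀ F ⊆ verts X, (F ∈ X.faces ↔ F.image φ ∈ Y.faces)

/-- The geometric realization, in barycentric coordinates: all nonnegative functions on the
vertices supported on a face with total mass one (a subspace of `ℕ → ℝ`). -/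
def space (X : Cplx) : Set (ℕ → ℝ) :=
  {x | (∀ v, 0 ≤ x v) ∧ ∃ F ∈ X.faces, (∀ v, v ∉ F → x v = 0) ∧ ∑ v ∈ F, x v = 1}

/-- `X` is a simplicial `n`-ball: it is pure of dimension `n`, and its geometric realization is
homeomorphic to the closed unit ball of the Euclidean space of dimension `n`. -/
def IsBall (n : ℕ) (X : Cplx) : Prop :=
  PureDim (n + 1) X ∧ Nonempty (space X ≃ₜ Metric.closedBall (0 : EuclideanSpace ℝ (Fin n)) 1)

/-- `X` is the boundary complex of a simplicial `d`-polytope, the convex hull of the points `p v`,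
where `v` runs over the vertices of `X`: the points do not lie on a hyperplane, and a set `F` of
vertices is a face of `X` if and only if it is a proper subset and its points are exactly those on
which some affine function (`ℓ - c`) attains its maximum (`0`). -/
def IsPolytopeBoundary (d : ℕ) (p : ℕ → Fin d → ℝ) (X : Cplx) : Prop :=
  (∀ (ℓ : (Fin d → ℝ) →ₗ[ℝ] ℝ) (c : ℝ), (∀ v ∈ verts X, ℓ (p v) = c) → ℓ = 0) ∧
  ∀ F, F ∈ X.faces ↔ F ⊂ verts X ∧ ∃ (ℓ : (Fin d → ℝ) →ₗ[ℝ] ℝ) (c : ℝ),
    (∀ v ∈ F, ℓ (p v) = c) ∧ ∀ v ∈ verts X, v ∉ F → ℓ (p v) < c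

/-- `E 0, …, E (m-1)` is a convex ear decomposition of the `(d-1)`-dimensional complex `X`. -/
structure IsConvexEarDecomposition (d : ℕ) (X : Cplx) (m : ℕ) (E : ℕ → Cplx) : Prop where
  pos : 0 < m
  /-- the `E j` are pure `(d-1)`-dimensional subcomplexes -/
  sub : ∀ j < m, PureDim d (E j) ∧ (E j).faces ⊆ X.faces
  /-- (1) `E 0` is isomorphic to the boundary complex of a simplicial `d`-polytope -/
  first : ∃ p P, IsPolytopeBoundary d p P ∧ Iso (E 0) P
  /-- (1) for `j ≥ 1`, `E j` is a `(d-1)`-ball isomorphic to a proper subcomplex of the boundary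
  complex of a simplicial `d`-polytope -/
  ear : ∀ j < m, 0 < j → IsBall (d - 1) (E j) ∧
    ∃ p P Q, IsPolytopeBoundary d p P ∧ Q.faces ⊂ P.faces ∧ Iso (E j) Q
  /-- (2) `E j` meets the union of the earlier ones in its boundary complex -/
  inter : ∀ j < m, 0 < j →
    (E j).faces ∩ (range j).biUnion (fun i => (E i).faces) = bdry d (E j)
  /-- (3) `X` is the union -/
  union : X.faces = (range m).biUnion (fun i => (E i).faces)

end Pool.Agent.R140.Ear
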