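import Pool.Agent.R140.Ear.Defs
import Pool.Agent.Helper175.NS.Section

set_option autoImplicit false

/-!
# Relative shellings and their reversals
-/

open Finset

namespace Pool.Agent.R140.Ear

open Pool.Agent.Helper175.NS (Shell)

/-- The list `l`, read from its end, is a relative shelling order modulo the complex `S`: the
intersection of each facet with the union of `S` and of the earlier ones is pure of codimension
one. -/
def RelShell (S : Finset (Finset ℕ)) : List (Finset ℕ) → Prop
  | [] => True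
  | F :: l => RelShell S l ∧ ∀ σ ⊆ F, (σ ∈ S ∨ ∃ G ∈ l, σ ⊆ G) →
      ∃ y ∈ F, σ ⊆ F.erase y ∧ (F.erase y ∈ S ∨ ∃ G ∈ l, F.erase y ⊆ G)

/-- all ridges of `E` containing `σ` are in `S` or in a facet of `l` -/
def Full (S : Finset (Finset ℕ)) (σ E : Finset ℕ) (l : List (Finset ℕ)) : Prop :=
  σ ⊆ E ∧ ∀ y ∈ E, y ∉ σ → (E.erase y ∈ S ∨ ∃ H ∈ l, E.erase y ⊆ H)

open Classical in
/-- the number of facets of the list all of whose ridges containing `σ` are old -/
noncomputable def cnt (S : Finset (Finset ℕ)) (σ : Finset ℕ) : List (Finset ℕ) → ℕ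
  | [] => 0
  | E :: l => cnt S σ l + if Full S σ E l then 1 else 0

open Classical in
lemma cnt_cons (S : Finset (Finset ℕ)) (σ E : Finset ℕ) (l : List (Finset ℕ)) :
    cnt S σ (E :: l) = cnt S σ l + if Full S σ E l then 1 else 0 := rfl

open Classical in
/-- the faces of the complex generated by `l` which contain `σ` and are not in `S` -/
noncomputable def relF (S : Finset (Finset ℕ)) (σ : Finset ℕ) (l : List (Finset ℕ)) :
    Finset (Finset ℕ) :=
  (l.toFinset.biUnion Finset.powerset).filter fun τ => σ ⊆ τ ∧ τ ∉ S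

lemma mem_relF {S : Finset (Finset ℕ)} {σ τ : Finset ℕ} {l : List (Finset ℕ)} :
    τ ∈ relF S σ l ↔ (∃ G ∈ l, τ ⊆ G) ∧ σ ⊆ τ ∧ τ ∉ S := by
  unfold relF
  rw [Finset.mem_filter, Finset.mem_biUnion]
  simp only [List.mem_toFinset, Finset.mem_powerset]

lemma sum_Icc_neg_one {A E : Finset ℕ} (h : A ⊆ E) :
    ∑ τ ∈ E.powerset.filter (fun τ => A ⊆ τ), (-1 : ℤ) ^ τ.card =
      if A = E then (-1) ^ E.card else 0 := by
  classical
  have h1 : ∑ τ ∈ E.powerset.filter (fun τ => A ⊆ τ), (-1 : ℤ) ^ τ.card =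
      ∑ ρ ∈ (E \ A).powerset, (-1 : ℤ) ^ (ρ.card + A.card) := by
    symm
    refine Finset.sum_bij' (fun ρ _ => ρ ∪ A) (fun τ _ => τ \ A) ?_ ?_ ?_ ?_ ?_
    · intro ρ hρ
      rw [Finset.mem_powerset] at hρ
      rw [Finset.mem_filter, Finset.mem_powerset]
      exact ⟨Finset.union_subset (hρ.trans Finset.sdiff_subset) h, Finset.subset_union_right⟩
    · intro τ hτ
      rw [Finset.mem_filter, Finset.mem_powerset] at hτ
      rw [Finset.mem_powerset]
      exact Finset.sdiff_subset_sdiff hτ.1 (Finset.Subset.refl _)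
    · intro ρ hρ
      rw [Finset.mem_powerset] at hρ
      have hd : Disjoint ρ A := Finset.disjoint_of_subset_left hρ Finset.sdiff_disjoint
      rw [Finset.union_sdiff_right, Finset.sdiff_eq_self_of_disjoint hd]
    · intro τ hτ
      rw [Finset.mem_filter] at hτ
      exact Finset.sdiff_union_of_subset hτ.2
    · intro ρ hρ
      rw [Finset.mem_powerset] at hρ
      have hd : Disjoint ρ A := Finset.disjoint_of_subset_left hρ Finset.sdiff_disjoint
      rw [Finset.card_union_of_disjoint hd]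
  rw [h1]
  have h2 : ∀ ρ ∈ (E \ A).powerset, (-1 : ℤ) ^ (ρ.card + A.card) =
      (-1) ^ ρ.card * (-1) ^ A.card := fun ρ _ => pow_add _ _ _
  rw [Finset.sum_congr rfl h2, ← Finset.sum_mul, Finset.sum_powerset_neg_one_pow_card]
  by_cases hAE : A = E
  · subst hAE
    simp
  · have : E \ A ≠ ∅ := by
      intro h3
      rw [Finset.sdiff_eq_empty_iff_subset] at h3
      exact hAE (Finset.Subset.antisymm h h3)
    rw [if_neg this, if_neg hAE, zero_mul]

/-- the Euler characteristic counts the full facets -/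
lemma euler_cnt {S : Finset (Finset ℕ)} (hS : ∀ F ∈ S, ∀ G ⊆ F, G ∈ S) {n : ℕ}
    (σ : Finset ℕ) : ∀ l : List (Finset ℕ), RelShell S l → (∀ E ∈ l, E.card = n) →
    ∑ τ ∈ relF S σ l, (-1 : ℤ) ^ τ.card = (-1) ^ n * cnt S σ l := by
  classical
  intro l
  induction l with
  | nil =>
    intro _ _
    have : relF S σ [] = ∅ := by
      ext τ
      rw [mem_relF]
      simp
    rw [this]
    simp [cnt]
  | cons E l ih =>
    rintro ⟨hl, hE⟩ hn
    have ih' := ih hl (fun F hF => hn F (List.mem_cons_of_mem _ hF))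
    -- the new faces
    let Y : Finset ℕ := E.filter fun y => E.erase y ∈ S ∨ ∃ H ∈ l, E.erase y ⊆ H
    have hnew : ∀ τ ⊆ E, ((τ ∈ S ∨ ∃ G ∈ l, τ ⊆ G) ↔ ¬ Y ⊆ τ) := by
      intro τ hτ
      constructor
      · intro h hY
        obtain ⟨y, hy, h1, h2⟩ := hE τ hτ h
        have hyY : y ∈ Y := Finset.mem_filter.2 ⟨hy, h2⟩
        exact (Finset.mem_erase.1 (h1 (hY hyY))).1 rfl
      · intro h
        rw [Finset.not_subset] at h
        obtain ⟨y, hy, hyτ⟩ := h
        rw [Finset.mem_filter] at hy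
        have h1 : τ ⊆ E.erase y := fun z hz =>
          Finset.mem_erase.2 ⟨fun h => hyτ (h ▸ hz), hτ hz⟩
        rcases hy.2 with h2 | ⟨H, hH, h2⟩
        · exact Or.inl (hS _ h2 _ h1)
        · exact Or.inr ⟨H, hH, h1.trans h2⟩
    have hsplit : relF S σ (E :: l) =
        relF S σ l ∪ (E.powerset.filter fun τ => σ ∪ Y ⊆ τ) := by
      ext τ
      rw [Finset.mem_union, mem_relF, mem_relF, Finset.mem_filter, Finset.mem_powerset,
        Finset.union_subset_iff]
      constructor
      · rintro ⟨⟨G, hG, hτG⟩, h1, h2⟩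
        by_cases h3 : ∃ G ∈ l, τ ⊆ G
        · exact Or.inl ⟨h3, h1, h2⟩
        · right
          rcases List.mem_cons.1 hG with rfl | hG
          · refine ⟨hτG, h1, ?_⟩
            by_contra h4
            rcases (hnew τ hτG).2 h4 with h5 | h5
            · exact h2 h5
            · exact h3 h5
          · exact absurd ⟨G, hG, hτG⟩ h3
      · rintro (⟨⟨G, hG, hτG⟩, h1, h2⟩ | ⟨h1, h2, h3⟩)
        · exact ⟨⟨G, List.mem_cons_of_mem _ hG, hτG⟩, h1, h2⟩
        · refine ⟨⟨E, List.mem_cons_self, h1⟩, h2, fun h4 => ?_⟩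
          exact (hnew τ h1).1 (Or.inl h4) h3
    have hdisj : Disjoint (relF S σ l) (E.powerset.filter fun τ => σ ∪ Y ⊆ τ) := by
      rw [Finset.disjoint_left]
      intro τ h1 h2
      rw [mem_relF] at h1
      rw [Finset.mem_filter, Finset.mem_powerset, Finset.union_subset_iff] at h2
      exact (hnew τ h2.1).1 (Or.inr h1.1) h2.2.2
    rw [hsplit, Finset.sum_union hdisj, ih']
    have hYE : Y ⊆ E := Finset.filter_subset _ _
    by_cases hσ : σ ⊆ E
    · rw [sum_Icc_neg_one (Finset.union_subset hσ hYE)]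
      have hfull : σ ∪ Y = E ↔ Full S σ E l := by
        unfold Full
        constructor
        · intro h
          refine ⟨hσ, fun y hy hyσ => ?_⟩
          rw [← h, Finset.mem_union] at hy
          rcases hy with h1 | h1
          · exact absurd h1 hyσ
          · exact (Finset.mem_filter.1 h1).2
        · rintro ⟨_, h⟩
          apply Finset.Subset.antisymm (Finset.union_subset hσ hYE)
          intro y hy
          rw [Finset.mem_union]
          by_cases hyσ : y ∈ σ
          · exact Or.inl hyσ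
          · exact Or.inr (Finset.mem_filter.2 ⟨hy, h y hy hyσ⟩)
      rw [hn E List.mem_cons_self, cnt_cons]
      by_cases hf : Full S σ E l
      · rw [if_pos (hfull.2 hf), if_pos hf]
        push_cast
        ring
      · rw [if_neg (fun h => hf (hfull.1 h)), if_neg hf]
        push_cast
        ring
    · have h1 : (E.powerset.filter fun τ => σ ∪ Y ⊆ τ) = ∅ := by
        rw [Finset.filter_eq_empty_iff]
        intro τ hτ h2
        rw [Finset.mem_powerset] at hτ
        exact hσ ((Finset.subset_union_left.trans h2).trans hτ)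
      rw [h1, Finset.sum_empty, cnt_cons, if_neg (fun h => hσ h.1)]
      push_cast
      ring

lemma cnt_append (S : Finset (Finset ℕ)) (σ : Finset ℕ) (a b : List (Finset ℕ)) :
    cnt S σ b ≤ cnt S σ (a ++ b) := by
  induction a with
  | nil => exact le_rfl
  | cons E a ih =>
    rw [List.cons_append, cnt_cons]
    omega

lemma exists_first {α : Type} (p : α → Prop) [DecidablePred p] (l : List α) (h : ∃ G ∈ l, p G) :
    ∃ a E b, l = a ++ E :: b ∧ p E ∧ ∀ x ∈ a, ¬ p x := by
  induction l with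
  | nil => obtain ⟨G, hG, _⟩ := h; simp at hG
  | cons F l ih =>
    by_cases hF : p F
    · exact ⟨[], F, l, rfl, hF, by simp⟩
    · have h' : ∃ G ∈ l, p G := by
        obtain ⟨G, hG, hp⟩ := h
        rcases List.mem_cons.1 hG with rfl | hG
        · exact absurd hp hF
        · exact ⟨G, hG, hp⟩
      obtain ⟨a, E, b, rfl, h1, h2⟩ := ih h'
      refine ⟨F :: a, E, b, rfl, h1, ?_⟩
      intro x hx
      rcases List.mem_cons.1 hx with rfl | hx
      · exact hF
      · exact h2 x hx

lemma shell_reverse (l : List (Finset ℕ))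
    (h : ∀ l1 F l2, l = l1 ++ F :: l2 → ∀ G ∈ l1, ∃ H ∈ l1, ∃ y ∈ F,
      F ∩ G ⊆ F.erase y ∧ F.erase y ⊆ H) : Shell l.reverse := by
  induction l using List.reverseRecOn with
  | nil => trivial
  | append_singleton l F ih =>
    rw [List.reverse_append, List.reverse_singleton, List.singleton_append]
    refine ⟨ih ?_, ?_⟩
    · intro l1 F' l2 hl
      apply h l1 F' (l2 ++ [F])
      rw [hl]
      simp
    · intro G hG
      rw [List.mem_reverse] at hG
      obtain ⟨H, hH, y, hy, h1, h2⟩ := h l F [] rfl G hG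
      exact ⟨H, List.mem_reverse.2 hH, y, hy, h1, h2⟩

/-- The reversal of a relative shelling of `(B, S)` is a shelling of `B`, if every ridge not in `S`
is in two facets, and all Euler characteristics of relative links are those of balls. -/
theorem rel_reverse {S : Finset (Finset ℕ)} (hS : ∀ F ∈ S, ∀ G ⊆ F, G ∈ S) {n : ℕ}
    (l : List (Finset ℕ)) (hl : RelShell S l) (hn : ∀ E ∈ l, E.card = n)
    (hridge : ∀ F ∈ l, ∀ y ∈ F, F.erase y ∈ S ∨ ∃ H ∈ l, H ≠ F ∧ F.erase y ⊆ H)
    (heul : ∀ F ∈ l, ∀ σ ⊆ F, ∑ τ ∈ relF S σ l, (-1 : ℤ) ^ τ.card = (-1) ^ n) :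
    Shell l.reverse := by
  classical
  apply shell_reverse
  intro l1 F l2 hdec G hG
  by_contra hcon
  push Not at hcon
  have hFl : F ∈ l := by rw [hdec]; simp
  have hGl : G ∈ l := by rw [hdec]; simp [hG]
  set σ := F ∩ G with hσ
  have hσF : σ ⊆ F := Finset.inter_subset_left
  have hσG : σ ⊆ G := Finset.inter_subset_right
  have hcnt : cnt S σ l = 1 := by
    have h1 := euler_cnt hS σ l hl hn
    rw [heul F hFl σ hσF] at h1
    have h2 : ((-1 : ℤ) ^ n) * ((-1 : ℤ) ^ n) = 1 := by
      rw [← pow_add, ← two_mul, pow_mul]; simp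
    have h3 : (cnt S σ l : ℤ) = 1 := by
      calc (cnt S σ l : ℤ) = (((-1 : ℤ) ^ n) * ((-1 : ℤ) ^ n)) * cnt S σ l := by rw [h2, one_mul]
        _ = ((-1 : ℤ) ^ n) * ((-1 : ℤ) ^ n * cnt S σ l) := by ring
        _ = 1 := by rw [← h1, h2]
    exact_mod_cast h3
  -- `F` is full
  have hfullF : Full S σ F l2 := by
    refine ⟨hσF, fun y hy hyσ => ?_⟩
    rcases hridge F hFl y hy with h1 | ⟨H, hH, hne, h1⟩
    · exact Or.inl h1
    · right
      refine ⟨H, ?_, h1⟩
      rw [hdec, List.mem_append, List.mem_cons] at hH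
      rcases hH with h2 | h2 | h2
      · exfalso
        apply hcon H h2 y hy
        · intro z hz
          exact Finset.mem_erase.2 ⟨fun h => hyσ (h ▸ hz), hσF hz⟩
        · exact h1
      · exact absurd h2 hne
      · exact h2
  obtain ⟨m1, E, k1, hl1, hσE, hm1⟩ := exists_first (fun X => σ ⊆ X) l1 ⟨G, hG, hσG⟩
  have hEl : E ∈ l := by rw [hdec, hl1]; simp
  have hdec2 : l = m1 ++ E :: (k1 ++ F :: l2) := by rw [hdec, hl1]; simp
  have hfullE : Full S σ E (k1 ++ F :: l2) := by
    refine ⟨hσE, fun y hy hyσ => ?_⟩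
    rcases hridge E hEl y hy with h1 | ⟨H, hH, hne, h1⟩
    · exact Or.inl h1
    · right
      refine ⟨H, ?_, h1⟩
      rw [hdec2, List.mem_append, List.mem_cons] at hH
      rcases hH with h2 | h2 | h2
      · exfalso
        apply hm1 H h2
        intro z hz
        exact h1 (Finset.mem_erase.2 ⟨fun h => hyσ (h ▸ hz), hσE hz⟩)
      · exact absurd h2 hne
      · exact h2
  have h1 : cnt S σ (F :: l2) = cnt S σ l2 + 1 := by
    rw [cnt_cons, if_pos hfullF]
  have h2 : cnt S σ (E :: (k1 ++ F :: l2)) = cnt S σ (k1 ++ F :: l2) + 1 := by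
    rw [cnt_cons, if_pos hfullE]
  have h3 := cnt_append S σ k1 (F :: l2)
  have h4 := cnt_append S σ m1 (E :: (k1 ++ F :: l2))
  rw [← hdec2] at h4
  omega

end Pool.Agent.R140.Ear
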