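import Pool.Agent.R140.Ear.Pigeon

set_option autoImplicit false

/-!
# The copies form a convex ear decomposition
-/

open Finset

namespace Pool.Agent.R140.Ear

open Pool.Agent.Helper175.NS (Sp relabel_homeo)

lemma verts_eq {X : Cplx} {v : ℕ} : v ∈ verts X ↔ ∃ F ∈ X.faces, v ∈ F := by
  unfold verts
  rw [Finset.mem_sup]
  rfl

lemma iso_refl (X : Cplx) : Iso X X :=
  ⟨id, Set.bijOn_id _, fun F _ => by rw [Finset.image_id]⟩

namespace Setup

variable {d M : ℕ} {P B : Cplx} (hs : Setup d M P B)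

include hs

lemma lift {T : Finset ℕ} (j : ℕ) (hT : T ∈ B.faces) {x : ℕ} (hx : x < M)
    (h : fj d M B j x ∈ T.image (fj d M B j)) : x ∈ T := by
  obtain ⟨z, hz, hzx⟩ := Finset.mem_image.1 h
  rw [← hs.fj_injOn j (hs.ltB hT hz) hx hzx]
  exact hz

lemma image_sub_iff {F G : Finset ℕ} (j : ℕ) (hF : F ∈ B.faces) (hG : G ∈ B.faces) :
    F.image (fj d M B j) ⊆ G.image (fj d M B j) ↔ F ⊆ G := by
  constructor
  · intro h x hx
    exact hs.lift j hG (hs.ltB hF hx) (h (Finset.mem_image_of_mem _ hx))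
  · exact fun h => Finset.image_subset_image h

lemma bdry_cpy (j : ℕ) : bdry d (cpy d M B j) = bdry d B := by
  classical
  have hcount : ∀ R ∈ B.faces, ((cpy d M B j).faces.filter fun F =>
      F.card = d ∧ R.image (fj d M B j) ⊆ F).card = (B.faces.filter fun F => F.card = d ∧ R ⊆ F).card := by
    intro R hR
    symm
    refine Finset.card_bij (fun F _ => F.image (fj d M B j)) ?_ ?_ ?_
    · intro F hF
      rw [Finset.mem_filter] at hF ⊢
      exact ⟨mem_relab.2 ⟨F, hF.1, rfl⟩, by rw [hs.card_image j hF.1]; exact hF.2.1,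
        Finset.image_subset_image hF.2.2⟩
    · intro F hF G hG h
      rw [Finset.mem_filter] at hF hG
      exact hs.fj_inj j hF.1 hG.1 h
    · intro F hF
      rw [Finset.mem_filter] at hF
      obtain ⟨G, hG, rfl⟩ := mem_relab.1 hF.1
      refine ⟨G, ?_, rfl⟩
      rw [Finset.mem_filter]
      rw [hs.card_image j hG] at hF
      exact ⟨hG, hF.2.1, (hs.image_sub_iff j hR hG).1 hF.2.2⟩
  ext G
  constructor
  · intro h
    obtain ⟨h1, R, hR, h2, h3, h4⟩ := mem_bdry.1 h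
    obtain ⟨R', hR', rfl⟩ := mem_relab.1 hR
    obtain ⟨G', hG', rfl⟩ := mem_relab.1 h1
    rw [hs.card_image j hR'] at h3
    rw [hcount R' hR'] at h4
    rw [hs.image_sub_iff j hG' hR'] at h2
    have h5 : G' ∈ bdry d B := mem_bdry.2 ⟨hG', R', hR', h2, h3, h4⟩
    rw [hs.image_of_bdry j h5]
    exact h5
  · intro h
    obtain ⟨h1, R, hR, h2, h3, h4⟩ := mem_bdry.1 h
    have hRb : R ∈ bdry d B := mem_bdry.2 ⟨hR, R, hR, Finset.Subset.refl _, h3, h4⟩
    refine mem_bdry.2 ⟨?_, R, ?_, h2, h3, ?_⟩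
    · exact mem_relab.2 ⟨G, h1, hs.image_of_bdry j h⟩
    · exact mem_relab.2 ⟨R, hR, hs.image_of_bdry j hRb⟩
    · have := hcount R hR
      rw [hs.image_of_bdry j hRb] at this
      rw [this, h4]

lemma iso_cpy (j : ℕ) : Iso (cpy d M B j) B := by
  have hv : ∀ v ∈ verts (cpy d M B j), ∃ w ∈ verts B, fj d M B j w = v := by
    intro v hv
    obtain ⟨F, hF, hvF⟩ := verts_eq.1 hv
    obtain ⟨G, hG, rfl⟩ := mem_relab.1 hF
    obtain ⟨w, hw, rfl⟩ := Finset.mem_image.1 hvF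
    exact ⟨w, verts_eq.2 ⟨G, hG, hw⟩, rfl⟩
  have hltv : ∀ w ∈ verts B, w < M := by
    intro w hw
    obtain ⟨F, hF, hwF⟩ := verts_eq.1 hw
    exact hs.ltB hF hwF
  refine ⟨gj M j, ⟨?_, ?_, ?_⟩, ?_⟩
  · intro v hv'
    obtain ⟨w, hw, rfl⟩ := hv v hv'
    rw [hs.gf j (hltv w hw)]
    exact hw
  · intro v hv' v2 hv2 h
    obtain ⟨w, hw, rfl⟩ := hv v hv'
    obtain ⟨w2, hw2, rfl⟩ := hv v2 hv2
    rw [hs.gf j (hltv w hw), hs.gf j (hltv w2 hw2)] at h
    rw [h]
  · intro w hw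
    refine ⟨fj d M B j w, ?_, hs.gf j (hltv w hw)⟩
    obtain ⟨F, hF, hwF⟩ := verts_eq.1 hw
    exact verts_eq.2 ⟨F.image (fj d M B j), mem_relab.2 ⟨F, hF, rfl⟩, Finset.mem_image_of_mem _ hwF⟩
  · intro F hF
    have himg : (F.image (gj M j)).image (fj d M B j) = F := by
      ext x
      rw [Finset.mem_image]
      constructor
      · rintro ⟨y, hy, rfl⟩
        obtain ⟨z, hz, rfl⟩ := Finset.mem_image.1 hy
        obtain ⟨w, hw, rfl⟩ := hv z (hF hz)
        rw [hs.gf j (hltv w hw)]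
        exact hz
      · intro hx
        refine ⟨gj M j x, Finset.mem_image_of_mem _ hx, ?_⟩
        obtain ⟨w, hw, rfl⟩ := hv x (hF hx)
        rw [hs.gf j (hltv w hw)]
    constructor
    · intro h
      obtain ⟨G, hG, rfl⟩ := mem_relab.1 h
      rw [hs.pull_image j hG]
      exact hG
    · intro h
      exact mem_relab.2 ⟨_, h, himg⟩

lemma space_cpy (j : ℕ) : Nonempty (space (cpy d M B j) ≃ₜ space B) := by
  refine relabel_homeo B.faces (fj d M B j) (verts B) ?_ ?_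
  · intro F hF v hv
    exact verts_eq.2 ⟨F, hF, hv⟩
  · intro v hv w hw h
    obtain ⟨F, hF, hvF⟩ := verts_eq.1 hv
    obtain ⟨G, hG, hwG⟩ := verts_eq.1 hw
    exact hs.fj_injOn j (hs.ltB hF hvF) (hs.ltB hG hwG) h

/-- the ears -/
def ear (d M : ℕ) (P B : Cplx) : ℕ → Cplx
  | 0 => P
  | j + 1 => cpy d M B j

omit hs in
lemma ear_zero : ear d M P B 0 = P := rfl

omit hs in
lemma ear_succ (j : ℕ) : ear d M P B (j + 1) = cpy d M B j := rfl

/-- **The decomposition.** -/
theorem decomposition (n : ℕ) {p : ℕ → Fin d → ℝ} (hP : IsPolytopeBoundary d p P)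
    (hball : IsBall (d - 1) B) (hd : 1 ≤ d) (hne : B.faces ≠ P.faces) :
    IsConvexEarDecomposition d (tot d M P B n) (n + 1) (ear d M P B) where
  pos := Nat.succ_pos n
  sub := by
    intro j hj
    cases j with
    | zero =>
      rw [ear_zero]
      exact ⟨pureDim_of hs.pureP, fun F hF => mem_tot.2 (Or.inl hF)⟩
    | succ j =>
      rw [ear_succ]
      exact ⟨pureDim_of (hs.pure_cpy j), fun F hF => mem_tot.2 (Or.inr ⟨j, by omega, hF⟩)⟩
  first := ⟨p, P, hP, by rw [ear_zero]; exact iso_refl P⟩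
  ear := by
    intro j hj hj0
    obtain ⟨j, rfl⟩ : ∃ i, j = i + 1 := ⟨j - 1, by omega⟩
    rw [ear_succ]
    refine ⟨⟨?_, ?_⟩, p, P, B, hP, ?_, hs.iso_cpy j⟩
    · have h1 := pureDim_of (hs.pure_cpy j)
      rwa [Nat.sub_add_cancel hd]
    · obtain ⟨e1⟩ := hs.space_cpy j
      obtain ⟨e2⟩ := hball.2
      exact ⟨e1.trans e2⟩
    · exact Finset.ssubset_iff_subset_ne.2 ⟨hs.sub, hne⟩
  inter := by
    intro j hj hj0
    obtain ⟨j, rfl⟩ : ∃ i, j = i + 1 := ⟨j - 1, by omega⟩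
    rw [ear_succ, hs.bdry_cpy j]
    ext F
    rw [Finset.mem_inter, Finset.mem_biUnion]
    constructor
    · rintro ⟨h1, i, hi, h2⟩
      rw [Finset.mem_range] at hi
      obtain ⟨T, hT, rfl⟩ := mem_relab.1 h1
      have h3 : T ∈ bdry d B := by
        apply hs.mem_bdry_of (j := j) hT
        cases i with
        | zero => exact Or.inl h2
        | succ i => exact Or.inr ⟨i, by omega, h2⟩
      rw [hs.image_of_bdry j h3]
      exact h3
    · intro h
      refine ⟨mem_relab.2 ⟨F, bdry_sub h, hs.image_of_bdry j h⟩, 0, by simp, ?_⟩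
      rw [ear_zero]
      exact hs.sub (bdry_sub h)
  union := by
    ext F
    rw [mem_tot, Finset.mem_biUnion]
    constructor
    · rintro (h | ⟨j, hj, h⟩)
      · exact ⟨0, by simp, h⟩
      · exact ⟨j + 1, by rw [Finset.mem_range]; omega, h⟩
    · rintro ⟨i, hi, h⟩
      rw [Finset.mem_range] at hi
      cases i with
      | zero => exact Or.inl h
      | succ i => exact Or.inr ⟨i, by omega, h⟩

end Setup

end Pool.Agent.R140.Ear
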