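import Pool.Agent.R140.Ear.Asm

set_option autoImplicit false

/-!
# The example: a complex with a convex ear decomposition which is not shellable
-/

namespace Pool.Agent.R140.Ear

/-- **Main theorem.** A complex with a convex ear decomposition which is not shellable. -/
theorem main : ∃ (X : Cplx) (m : ℕ) (E : ℕ → Cplx), PureDim 4 X ∧
    IsConvexEarDecomposition 4 X m E ∧ ¬ Shellable X :=
  main_of (B := BF) (T := BT) (I := IE) (O := IO) (P := PF) (Q := PC) rfl BF_ne PF_ne BF_four
    PF_four BF_bdry BF_bdry2 BF_ind BF_int BF_eul good_all pair01 pair67 pair78 pair824 pair246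
    moves lastS lastS_four BF_chain BF_sub PF_lt PF_cov PC_ok PF_nbr BF_two

end Pool.Agent.R140.Ear
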