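import Pool.Agent.R140.Ear.Poly

set_option autoImplicit false

/-!
# Bit masks
-/

open Finset

namespace Pool.Agent.R140.Ear

/-- the set with a given bit mask -/
def dm (m : ℕ) : Finset ℕ := (range 32).filter fun i => m.testBit i = true

/-- the list of bits -/
def bl (m : ℕ) : List ℕ := (List.range 32).filter fun i => m.testBit i

/-- containment of masks -/
def sub (a b : ℕ) : Bool := Nat.beq (Nat.land a b) a

lemma mem_dm {m n : ℕ} : n ∈ dm m ↔ n < 32 ∧ m.testBit n = true := by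
  rw [dm, mem_filter, mem_range]

lemma mem_bl {m n : ℕ} : n ∈ bl m ↔ n ∈ dm m := by
  rw [bl, List.mem_filter, List.mem_range, mem_dm]

lemma nodup_bl (m : ℕ) : (bl m).Nodup := (List.nodup_range).filter _

lemma card_dm (m : ℕ) : (dm m).card = (bl m).length := by
  have e : dm m = (bl m).toFinset := by
    ext n
    rw [List.mem_toFinset, mem_bl]
  rw [e, List.toFinset_card_of_nodup (nodup_bl m)]

lemma testBit_big {m i : ℕ} (h : m < 2 ^ 32) (hi : 32 ≤ i) : m.testBit i = false :=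
  Nat.testBit_eq_false_of_lt (h.trans_le (Nat.pow_le_pow_right (by norm_num) hi))

lemma sub_iff {a b : ℕ} (ha : a < 2 ^ 32) : sub a b = true ↔ dm a ⊆ dm b := by
  unfold sub
  rw [Nat.beq_eq]
  constructor
  · intro h n hn
    rw [mem_dm] at hn ⊢
    refine ⟨hn.1, ?_⟩
    have h1 := congrArg (fun k => Nat.testBit k n) h
    have h2 : (a &&& b).testBit n = a.testBit n := h1
    simp only [Nat.testBit_land, hn.2, Bool.and_eq_true] at h2
    exact h2.2
  · intro h
    change a &&& b = a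
    apply Nat.eq_of_testBit_eq
    intro i
    rw [Nat.testBit_land]
    rcases Nat.lt_or_ge i 32 with hi | hi
    · cases h1 : a.testBit i with
      | false => simp
      | true =>
        have h2 := h (mem_dm.2 ⟨hi, h1⟩)
        rw [mem_dm] at h2
        simp [h2.2]
    · simp [testBit_big ha hi]

lemma dm_inj {a b : ℕ} (ha : a < 2 ^ 32) (hb : b < 2 ^ 32) (h : dm a = dm b) : a = b := by
  apply Nat.eq_of_testBit_eq
  intro i
  rcases Nat.lt_or_ge i 32 with hi | hi
  · have h1 : i ∈ dm a ↔ i ∈ dm b := by rw [h]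
    rw [mem_dm, mem_dm] at h1
    cases ha' : a.testBit i <;> cases hb' : b.testBit i <;> simp_all
  · rw [testBit_big ha hi, testBit_big hb hi]

lemma dm_lor_two_pow {s b : ℕ} (hb : b < 32) : dm (s ||| 2 ^ b) = insert b (dm s) := by
  ext n
  rw [mem_insert, mem_dm, mem_dm, Nat.testBit_lor, Nat.testBit_two_pow]
  by_cases h1 : n = b
  · subst h1
    simp [hb]
  · simp [h1, Ne.symm h1]

lemma dm_xor_two_pow {s b : ℕ} (hb : b ∈ dm s) : dm (s ^^^ 2 ^ b) = (dm s).erase b := by
  rw [mem_dm] at hb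
  ext n
  rw [mem_erase, mem_dm, mem_dm, Nat.testBit_xor, Nat.testBit_two_pow]
  by_cases h1 : n = b
  · subst h1
    simp [hb.2]
  · simp [h1, Ne.symm h1]

lemma dm_lor (a b : ℕ) : dm (a ||| b) = dm a ∪ dm b := by
  ext n
  rw [mem_union, mem_dm, mem_dm, mem_dm, Nat.testBit_lor, Bool.or_eq_true]
  tauto

lemma dm_land (a b : ℕ) : dm (a &&& b) = dm a ∩ dm b := by
  ext n
  rw [mem_inter, mem_dm, mem_dm, mem_dm, Nat.testBit_land, Bool.and_eq_true]
  tauto

lemma dm_zero : dm 0 = ∅ := by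
  ext n
  rw [mem_dm]
  simp

/-- the masks of the subsets of a set given by the list of its elements -/
def sms : List ℕ → List ℕ
  | [] => [0]
  | b :: bs => sms bs ++ (sms bs).map fun s => s ||| 2 ^ b

lemma mem_sms (bs : List ℕ) (hb : ∀ b ∈ bs, b < 32) : ∀ G : Finset ℕ, (∀ x ∈ G, x ∈ bs) →
    ∃ s ∈ sms bs, dm s = G := by
  induction bs with
  | nil =>
    intro G hG
    refine ⟨0, by simp [sms], ?_⟩
    rw [dm_zero]
    symm
    rw [Finset.eq_empty_iff_forall_notMem]
    intro x hx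
    have := hG x hx
    simp at this
  | cons b bs ih =>
    intro G hG
    obtain ⟨s, hs, h1⟩ := ih (fun x hx => hb x (List.mem_cons_of_mem _ hx)) (G.erase b) (by
      intro x hx
      rw [mem_erase] at hx
      rcases List.mem_cons.1 (hG x hx.2) with h | h
      · exact absurd h hx.1
      · exact h)
    by_cases hbG : b ∈ G
    · refine ⟨s ||| 2 ^ b, ?_, ?_⟩
      · rw [sms, List.mem_append, List.mem_map]
        exact Or.inr ⟨s, hs, rfl⟩
      · rw [dm_lor_two_pow (hb b List.mem_cons_self), h1, insert_erase hbG]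
    · refine ⟨s, ?_, ?_⟩
      · rw [sms, List.mem_append]
        exact Or.inl hs
      · rw [h1, erase_eq_of_notMem hbG]

lemma sms_lt (bs : List ℕ) (hb : ∀ b ∈ bs, b < 32) : ∀ s ∈ sms bs, s < 2 ^ 32 := by
  induction bs with
  | nil =>
    intro s hs
    simp [sms] at hs
    subst hs
    norm_num
  | cons b bs ih =>
    have ih' := ih (fun x hx => hb x (List.mem_cons_of_mem _ hx))
    intro s hs
    rw [sms, List.mem_append, List.mem_map] at hs
    rcases hs with h | ⟨t, ht, rfl⟩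
    · exact ih' s h
    · exact Nat.or_lt_two_pow (ih' t ht)
        (Nat.pow_lt_pow_right (by norm_num) (hb b List.mem_cons_self))

lemma exists_mask {m : ℕ} {G : Finset ℕ} (hG : G ⊆ dm m) :
    ∃ s ∈ sms (bl m), dm s = G ∧ s < 2 ^ 32 := by
  have hb : ∀ b ∈ bl m, b < 32 := fun b hb => (mem_dm.1 (mem_bl.1 hb)).1
  obtain ⟨s, hs, h⟩ := mem_sms (bl m) hb G (fun x hx => mem_bl.2 (hG hx))
  exact ⟨s, hs, h, sms_lt _ hb s hs⟩

/-- the complex generated by a list of masks -/
def genC (l : List ℕ) (h : l ≠ []) : Cplx where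
  faces := (l.map dm).toFinset.biUnion powerset
  empty_mem := by
    obtain ⟨m, t, rfl⟩ := List.exists_cons_of_ne_nil h
    rw [mem_biUnion]
    exact ⟨dm m, by simp, by simp⟩
  down := by
    intro F hF G hG
    rw [mem_biUnion] at hF ⊢
    obtain ⟨A, hA, h⟩ := hF
    exact ⟨A, hA, mem_powerset.2 (hG.trans (mem_powerset.1 h))⟩

lemma mem_genC {l : List ℕ} {h : l ≠ []} {G : Finset ℕ} :
    G ∈ (genC l h).faces ↔ ∃ m ∈ l, G ⊆ dm m := by
  unfold genC
  simp only [mem_biUnion, List.mem_toFinset, List.mem_map, mem_powerset]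
  constructor
  · rintro ⟨A, ⟨m, hm, rfl⟩, h⟩
    exact ⟨m, hm, h⟩
  · rintro ⟨m, hm, h⟩
    exact ⟨_, ⟨m, hm, rfl⟩, h⟩

/-- the list of masks is a list of masks of four-element sets -/
def fourB (l : List ℕ) : Bool := l.all fun m => Nat.beq (bl m).length 4 && Nat.blt m (2 ^ 31)

lemma fourB_spec {l : List ℕ} (h : fourB l = true) {m : ℕ} (hm : m ∈ l) :
    (dm m).card = 4 ∧ m < 2 ^ 31 := by
  rw [fourB, List.all_eq_true] at h
  have h1 := h m hm
  rw [Bool.and_eq_true, Nat.beq_eq, Nat.blt_eq] at h1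
  rw [card_dm]
  exact h1

lemma pure_genC {l : List ℕ} (hne : l ≠ []) (h : fourB l = true) : PureF 4 (genC l hne) := by
  intro F hF
  obtain ⟨m, hm, hFm⟩ := mem_genC.1 hF
  have h4 := (fourB_spec h hm).1
  refine ⟨by rw [← h4]; exact card_le_card hFm, dm m, ?_, hFm, h4⟩
  exact mem_genC.2 ⟨m, hm, Subset.refl _⟩

lemma facet_genC {l : List ℕ} (hne : l ≠ []) (h : fourB l = true) {F : Finset ℕ} :
    IsFacet (genC l hne) F ↔ ∃ m ∈ l, dm m = F := by
  rw [isFacet_iff (pure_genC hne h), mem_genC]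
  constructor
  · rintro ⟨⟨m, hm, h1⟩, h2⟩
    refine ⟨m, hm, ?_⟩
    have h4 := (fourB_spec h hm).1
    exact (eq_of_subset_of_card_le h1 (by omega)).symm
  · rintro ⟨m, hm, rfl⟩
    exact ⟨⟨m, hm, Subset.refl _⟩, (fourB_spec h hm).1⟩

/-! ### The boundary -/

/-- `t` is the list of the masks of the boundary ridges -/
def bdryB (l t : List ℕ) : Bool :=
  (l.all fun m => (bl m).all fun z => t.any (fun r => Nat.beq r (m ^^^ 2 ^ z)) ||
    l.any fun m' => !(Nat.beq m' m) && sub (m ^^^ 2 ^ z) m') &&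
  t.all fun r => Nat.beq (bl r).length 3 && Nat.blt r (2 ^ 31) &&
    l.all fun m => l.all fun m' => !(sub r m) || !(sub r m') || Nat.beq m m'

/-- every boundary ridge is in a facet -/
def bdryB2 (l t : List ℕ) : Bool := t.all fun r => l.any fun m => sub r m

lemma xor_lt {m z : ℕ} (hm : m < 2 ^ 31) (hz : z ∈ dm m) : m ^^^ 2 ^ z < 2 ^ 31 := by
  have hz31 : z < 31 := by
    by_contra hcon
    have h1 := (mem_dm.1 hz).2
    rw [Nat.testBit_eq_false_of_lt (hm.trans_le (Nat.pow_le_pow_right (by norm_num) (by omega)))] at h1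
    exact absurd h1 (by simp)
  exact Nat.xor_lt_two_pow hm (Nat.pow_lt_pow_right (by norm_num) hz31)

theorem bdry_genC {l t : List ℕ} (hne : l ≠ []) (h4 : fourB l = true) (hb : bdryB l t = true)
    (hb2 : bdryB2 l t = true) {G : Finset ℕ} :
    G ∈ bdry 4 (genC l hne) ↔ ∃ r ∈ t, G ⊆ dm r := by
  rw [bdryB, Bool.and_eq_true, List.all_eq_true, List.all_eq_true] at hb
  obtain ⟨hb1, hb3⟩ := hb
  rw [bdryB2, List.all_eq_true] at hb2
  have hlt : ∀ m ∈ l, m < 2 ^ 32 := fun m hm => (fourB_spec h4 hm).2.trans (by norm_num)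
  rw [mem_bdry]
  constructor
  · rintro ⟨_, R, hR, hGR, hR3, hcard⟩
    obtain ⟨m, hm, hRm⟩ := mem_genC.1 hR
    have hm4 := (fourB_spec h4 hm).1
    -- `R` is the facet minus a vertex
    have h1 : ∃ z ∈ dm m, z ∉ R := by
      by_contra hcon
      push Not at hcon
      have := card_le_card (show dm m ⊆ R from hcon)
      omega
    obtain ⟨z, hz, hzR⟩ := h1
    have hRe : R = (dm m).erase z := by
      apply eq_of_subset_of_card_le
      · intro x hx
        exact mem_erase.2 ⟨fun h => hzR (h ▸ hx), hRm hx⟩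
      · rw [card_erase_of_mem hz]
        omega
    have hRd : dm (m ^^^ 2 ^ z) = R := by rw [dm_xor_two_pow hz, hRe]
    have h2 := hb1 m hm
    rw [List.all_eq_true] at h2
    have h3 := h2 z (mem_bl.2 hz)
    rw [Bool.or_eq_true, List.any_eq_true, List.any_eq_true] at h3
    rcases h3 with ⟨r, hr, hre⟩ | ⟨m', hm', h5⟩
    · rw [Nat.beq_eq] at hre
      refine ⟨r, hr, ?_⟩
      rw [hre, hRd]
      exact hGR
    · exfalso
      rw [Bool.and_eq_true, Bool.not_eq_true', ← Bool.not_eq_true, Nat.beq_eq] at h5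
      have hxl := xor_lt (fourB_spec h4 hm).2 hz
      rw [sub_iff (hxl.trans (by norm_num)), hRd] at h5
      obtain ⟨F, hF⟩ := card_eq_one.1 hcard
      have e1 : dm m ∈ ({F} : Finset (Finset ℕ)) := by
        rw [← hF, mem_filter, mem_genC]
        exact ⟨⟨m, hm, Subset.refl _⟩, hm4, hRm⟩
      have e2 : dm m' ∈ ({F} : Finset (Finset ℕ)) := by
        rw [← hF, mem_filter, mem_genC]
        exact ⟨⟨m', hm', Subset.refl _⟩, (fourB_spec h4 hm').1, h5.2⟩
      rw [mem_singleton] at e1 e2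
      exact h5.1 (dm_inj (hlt m' hm') (hlt m hm) (e2.trans e1.symm))
  · rintro ⟨r, hr, hGr⟩
    have h1 := hb3 r hr
    rw [Bool.and_eq_true, Bool.and_eq_true, Nat.beq_eq, Nat.blt_eq] at h1
    obtain ⟨⟨h2, h3⟩, h5⟩ := h1
    have h6 := hb2 r hr
    rw [List.any_eq_true] at h6
    obtain ⟨m, hm, hrm⟩ := h6
    have hr32 : r < 2 ^ 32 := h3.trans (by norm_num)
    rw [sub_iff hr32] at hrm
    refine ⟨mem_genC.2 ⟨m, hm, hGr.trans hrm⟩, dm r, mem_genC.2 ⟨m, hm, hrm⟩, hGr, ?_, ?_⟩
    · rw [card_dm, h2]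
    · rw [card_eq_one]
      refine ⟨dm m, ?_⟩
      ext F
      rw [mem_filter, mem_singleton, mem_genC]
      constructor
      · rintro ⟨⟨m', hm', hF⟩, hF4, hrF⟩
        have hFe : F = dm m' := eq_of_subset_of_card_le hF (by
          rw [(fourB_spec h4 hm').1, hF4])
        rw [List.all_eq_true] at h5
        have h7 := h5 m' hm'
        rw [List.all_eq_true] at h7
        have h8 := h7 m hm
        have e1 : sub r m' = true := (sub_iff hr32).2 (hFe ▸ hrF)
        have e2 : sub r m = true := (sub_iff hr32).2 hrm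
        rw [e1, e2] at h8
        simp only [Bool.not_true, Bool.or_self, Bool.false_or, Nat.beq_eq] at h8
        rw [hFe, h8]
      · rintro rfl
        exact ⟨⟨m, hm, Subset.refl _⟩, (fourB_spec h4 hm).1, hrm⟩

/-- the boundary is induced -/
def indB (l t : List ℕ) : Bool :=
  l.all fun m => t.any fun r => sub (m &&& (t.foldr (fun a b => a ||| b) 0)) r

lemma dm_foldr (t : List ℕ) : dm (t.foldr (fun a b => a ||| b) 0) = t.toFinset.sup dm := by
  induction t with
  | nil => simp [dm_zero]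
  | cons a t ih =>
    rw [List.foldr_cons, dm_lor, ih, List.toFinset_cons, Finset.sup_insert]
    rfl

theorem ind_genC {l t : List ℕ} (hne : l ≠ []) (h4 : fourB l = true) (hb : bdryB l t = true)
    (hb2 : bdryB2 l t = true) (hi : indB l t = true) :
    ∀ F ∈ (genC l hne).faces, F ⊆ bv 4 (genC l hne) → F ∈ bdry 4 (genC l hne) := by
  intro F hF hFb
  obtain ⟨m, hm, hFm⟩ := mem_genC.1 hF
  rw [indB, List.all_eq_true] at hi
  have h1 := hi m hm
  rw [List.any_eq_true] at h1
  obtain ⟨r, hr, h2⟩ := h1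
  have hm32 : m < 2 ^ 32 := (fourB_spec h4 hm).2.trans (by norm_num)
  have h3 : m &&& (t.foldr (fun a b => a ||| b) 0) < 2 ^ 32 :=
    lt_of_le_of_lt Nat.and_le_left hm32
  rw [sub_iff h3, dm_land] at h2
  rw [bdry_genC hne h4 hb hb2]
  refine ⟨r, hr, ?_⟩
  intro x hx
  apply h2
  rw [mem_inter]
  refine ⟨hFm hx, ?_⟩
  rw [dm_foldr]
  have h5 := hFb hx
  unfold bv at h5
  obtain ⟨G, hG, hxG⟩ := Finset.mem_sup.1 h5
  obtain ⟨r', hr', hGr⟩ := (bdry_genC hne h4 hb hb2).1 hG
  exact Finset.mem_sup.2 ⟨r', List.mem_toFinset.2 hr', hGr hxG⟩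

end Pool.Agent.R140.Ear
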