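import Pool.Agent.R140.Ear.Dual
import Pool.Agent.Helper175.NS.Main

set_option autoImplicit false

/-!
# Many copies of a ball glued along the boundary
-/

open Finset

namespace Pool.Agent.R140.Ear

open Pool.Agent.Helper175.NS (Shell shell_take)

/-- relabelling of the vertices -/
def relab (f : ℕ → ℕ) (X : Cplx) : Cplx where
  faces := X.faces.image fun F => F.image f
  empty_mem := Finset.mem_image.2 ⟨∅, X.empty_mem, rfl⟩
  down := by
    intro F hF G hG
    obtain ⟨F', hF', rfl⟩ := Finset.mem_image.1 hF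
    refine Finset.mem_image.2 ⟨F'.filter fun v => f v ∈ G, X.down _ hF' _ (Finset.filter_subset _ _), ?_⟩
    ext y
    rw [Finset.mem_image]
    constructor
    · rintro ⟨x, hx, rfl⟩
      exact (Finset.mem_filter.1 hx).2
    · intro hy
      obtain ⟨x, hx, rfl⟩ := Finset.mem_image.1 (hG hy)
      exact ⟨x, Finset.mem_filter.2 ⟨hx, hy⟩, rfl⟩

lemma mem_relab {f : ℕ → ℕ} {X : Cplx} {F : Finset ℕ} :
    F ∈ (relab f X).faces ↔ ∃ G ∈ X.faces, G.image f = F := Finset.mem_image

/-- the union of complexes -/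
def unionC (X Y : Cplx) : Cplx where
  faces := X.faces ∪ Y.faces
  empty_mem := Finset.mem_union_left _ X.empty_mem
  down := by
    intro F hF G hG
    rcases Finset.mem_union.1 hF with h | h
    · exact Finset.mem_union_left _ (X.down F h G hG)
    · exact Finset.mem_union_right _ (Y.down F h G hG)

/-- all faces lie in faces with `d` vertices, and none is larger -/
def PureF (d : ℕ) (X : Cplx) : Prop :=
  ∀ F ∈ X.faces, F.card ≤ d ∧ ∃ G ∈ X.faces, F ⊆ G ∧ G.card = d

lemma isFacet_iff {d : ℕ} {X : Cplx} (h : PureF d X) {F : Finset ℕ} :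
    IsFacet X F ↔ F ∈ X.faces ∧ F.card = d := by
  constructor
  · rintro ⟨h1, h2⟩
    obtain ⟨_, G, hG, hFG, hc⟩ := h F h1
    rw [← h2 G hG hFG]
    exact ⟨hG, hc⟩
  · rintro ⟨h1, h2⟩
    refine ⟨h1, fun G hG hFG => ?_⟩
    have := (h G hG).1
    exact (Finset.eq_of_subset_of_card_le hFG (by omega)).symm

lemma pureDim_of {d : ℕ} {X : Cplx} (h : PureF d X) : PureDim d X := fun _ hF =>
  ((isFacet_iff h).1 hF).2

/-- the vertices of the boundary -/
def bv (d : ℕ) (B : Cplx) : Finset ℕ := (bdry d B).sup id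

lemma mem_bdry {d : ℕ} {X : Cplx} {G : Finset ℕ} : G ∈ bdry d X ↔
    G ∈ X.faces ∧ ∃ R ∈ X.faces, G ⊆ R ∧ R.card + 1 = d ∧
    (X.faces.filter fun F => F.card = d ∧ R ⊆ F).card = 1 := by
  unfold bdry
  rw [Finset.mem_filter]

lemma bdry_down {d : ℕ} {X : Cplx} : ∀ F ∈ bdry d X, ∀ G ⊆ F, G ∈ bdry d X := by
  intro F hF G hG
  rw [mem_bdry] at hF ⊢
  obtain ⟨h1, R, hR, h2, h3⟩ := hF
  exact ⟨X.down F h1 G hG, R, hR, hG.trans h2, h3⟩

lemma bdry_sub {d : ℕ} {X : Cplx} {F : Finset ℕ} (hF : F ∈ bdry d X) : F ∈ X.faces :=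
  (mem_bdry.1 hF).1

lemma bdry_card {d : ℕ} {X : Cplx} {F : Finset ℕ} (hF : F ∈ bdry d X) : F.card < d := by
  obtain ⟨_, R, _, h1, h2, _⟩ := mem_bdry.1 hF
  have := Finset.card_le_card h1
  omega

lemma bdry_bv {d : ℕ} {X : Cplx} {F : Finset ℕ} (hF : F ∈ bdry d X) : F ⊆ bv d X :=
  Finset.le_sup (f := id) hF

/-- the data: a ball `B` in a complex `P` such that the boundary of `B` is an induced subcomplex -/
structure Setup (d M : ℕ) (P B : Cplx) : Prop where
  sub : B.faces ⊆ P.faces
  lt : ∀ F ∈ P.faces, ∀ v ∈ F, v < M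
  pureP : PureF d P
  pureB : PureF d B
  ind : ∀ F ∈ B.faces, F ⊆ bv d B → F ∈ bdry d B

/-- the relabelling for the copy `j` -/
def fj (d M : ℕ) (B : Cplx) (j v : ℕ) : ℕ := if v ∈ bv d B then v else v + (j + 1) * M

/-- the inverse relabelling for the copy `j` -/
def gj (M j v : ℕ) : ℕ := if v < M then v else v - (j + 1) * M

/-- the copy `j` of `B` -/
def cpy (d M : ℕ) (B : Cplx) (j : ℕ) : Cplx := relab (fj d M B j) B

/-- the union of `P` and of the first `n` copies -/
def tot (d M : ℕ) (P B : Cplx) : ℕ → Cplx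
  | 0 => P
  | n + 1 => unionC (tot d M P B n) (cpy d M B n)

lemma mem_tot {d M : ℕ} {P B : Cplx} {n : ℕ} {F : Finset ℕ} :
    F ∈ (tot d M P B n).faces ↔ F ∈ P.faces ∨ ∃ j < n, F ∈ (cpy d M B j).faces := by
  induction n with
  | zero => simp [tot]
  | succ n ih =>
    unfold tot unionC
    rw [Finset.mem_union, ih]
    constructor
    · rintro ((h | ⟨j, hj, h⟩) | h)
      · exact Or.inl h
      · exact Or.inr ⟨j, by omega, h⟩
      · exact Or.inr ⟨n, by omega, h⟩
    · rintro (h | ⟨j, hj, h⟩)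
      · exact Or.inl (Or.inl h)
      · rcases Nat.lt_succ_iff_lt_or_eq.1 hj with h1 | h1
        · exact Or.inl (Or.inr ⟨j, h1, h⟩)
        · exact Or.inr (h1 ▸ h)

namespace Setup

variable {d M : ℕ} {P B : Cplx} (hs : Setup d M P B)

include hs

lemma ltB {F : Finset ℕ} (hF : F ∈ B.faces) {v : ℕ} (hv : v ∈ F) : v < M := hs.lt F (hs.sub hF) v hv

lemma bv_lt {v : ℕ} (hv : v ∈ bv d B) : v < M := by
  unfold bv at hv
  obtain ⟨F, hF, hvF⟩ := Finset.mem_sup.1 hv
  exact hs.ltB (bdry_sub hF) hvF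

lemma gf {v : ℕ} (j : ℕ) (hv : v < M) : gj M j (fj d M B j v) = v := by
  unfold fj gj
  split_ifs with h1 h2
  · rfl
  · have : M ≤ (j + 1) * M := Nat.le_mul_of_pos_left M (Nat.succ_pos j)
    omega
  · omega

lemma pull_image {F : Finset ℕ} (j : ℕ) (hF : F ∈ B.faces) :
    (F.image (fj d M B j)).image (gj M j) = F := by
  rw [Finset.image_image]
  ext x
  rw [Finset.mem_image]
  constructor
  · rintro ⟨y, hy, rfl⟩
    rw [Function.comp_apply, hs.gf j (hs.ltB hF hy)]
    exact hy
  · intro hx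
    exact ⟨x, hx, by rw [Function.comp_apply, hs.gf j (hs.ltB hF hx)]⟩

lemma fj_inj {F G : Finset ℕ} (j : ℕ) (hF : F ∈ B.faces) (hG : G ∈ B.faces)
    (h : F.image (fj d M B j) = G.image (fj d M B j)) : F = G := by
  rw [← hs.pull_image j hF, h, hs.pull_image j hG]

lemma fj_injOn (j : ℕ) {v w : ℕ} (hv : v < M) (hw : w < M)
    (h : fj d M B j v = fj d M B j w) : v = w := by
  rw [← hs.gf j hv, h, hs.gf j hw]

lemma card_image {F : Finset ℕ} (j : ℕ) (hF : F ∈ B.faces) :
    (F.image (fj d M B j)).card = F.card := by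
  apply Finset.card_image_of_injOn
  intro v hv w hw h
  exact hs.fj_injOn j (hs.ltB hF hv) (hs.ltB hF hw) h

lemma image_of_bdry {F : Finset ℕ} (j : ℕ) (hF : F ∈ bdry d B) : F.image (fj d M B j) = F := by
  ext x
  rw [Finset.mem_image]
  constructor
  · rintro ⟨y, hy, rfl⟩
    unfold fj
    rw [if_pos (bdry_bv hF hy)]
    exact hy
  · intro hx
    refine ⟨x, hx, ?_⟩
    unfold fj
    rw [if_pos (bdry_bv hF hx)]

/-- a face of a copy which is in `P` or in another copy is in the boundary -/
lemma mem_bdry_of {T : Finset ℕ} {j : ℕ} (hT : T ∈ B.faces)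
    (h : T.image (fj d M B j) ∈ P.faces ∨ ∃ i, i ≠ j ∧ T.image (fj d M B j) ∈ (cpy d M B i).faces) :
    T ∈ bdry d B := by
  apply hs.ind T hT
  intro v hv
  by_contra hcon
  have hvT := Finset.mem_image_of_mem (fj d M B j) hv
  have hfv : fj d M B j v = v + (j + 1) * M := by unfold fj; rw [if_neg hcon]
  have hvM : v < M := hs.ltB hT hv
  rw [hfv] at hvT
  have h1M : M ≤ (j + 1) * M := Nat.le_mul_of_pos_left M (Nat.succ_pos j)
  rcases h with h | ⟨i, hij, h⟩
  · have := hs.lt _ h _ hvT
    omega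
  · obtain ⟨U, hU, hUT⟩ := mem_relab.1 h
    rw [← hUT] at hvT
    obtain ⟨w, hw, hwv⟩ := Finset.mem_image.1 hvT
    have hwM : w < M := hs.ltB hU hw
    unfold fj at hwv
    split_ifs at hwv with h1
    · omega
    · rcases Nat.lt_or_gt_of_ne hij with h2 | h2
      · have : (i + 1) * M + M ≤ (j + 1) * M := by
          have : (i + 1) * M + M = (i + 2) * M := by ring
          rw [this]
          exact Nat.mul_le_mul_right M (by omega)
        omega
      · have : (j + 1) * M + M ≤ (i + 1) * M := by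
          have : (j + 1) * M + M = (j + 2) * M := by ring
          rw [this]
          exact Nat.mul_le_mul_right M (by omega)
        omega

lemma pure_cpy (j : ℕ) : PureF d (cpy d M B j) := by
  intro F hF
  obtain ⟨G, hG, rfl⟩ := mem_relab.1 hF
  obtain ⟨h1, H, hH, hGH, h2⟩ := hs.pureB G hG
  rw [hs.card_image j hG]
  refine ⟨h1, H.image (fj d M B j), mem_relab.2 ⟨H, hH, rfl⟩, Finset.image_subset_image hGH, ?_⟩
  rw [hs.card_image j hH, h2]

lemma pure_tot (n : ℕ) : PureF d (tot d M P B n) := by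
  intro F hF
  rcases mem_tot.1 hF with h | ⟨j, hj, h⟩
  · obtain ⟨h1, G, hG, h2⟩ := hs.pureP F h
    exact ⟨h1, G, mem_tot.2 (Or.inl hG), h2⟩
  · obtain ⟨h1, G, hG, h2⟩ := hs.pure_cpy j F h
    exact ⟨h1, G, mem_tot.2 (Or.inr ⟨j, hj, hG⟩), h2⟩

/-- the facets of `P` have index `0` -/
lemma idx_P {F : Finset ℕ} (hM : 0 < M) (hF : F ∈ P.faces) : F.sup id / M = 0 := by
  rw [Nat.div_eq_zero_iff]
  right
  rw [Finset.sup_lt_iff hM]
  exact fun v hv => hs.lt F hF v hv

/-- the facets of the copy `j` have index `j + 1` -/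
lemma idx_cpy {F : Finset ℕ} (hM : 0 < M) {j : ℕ} (hF : F ∈ (cpy d M B j).faces)
    (hc : F.card = d) : F.sup id / M = j + 1 := by
  obtain ⟨G, hG, rfl⟩ := mem_relab.1 hF
  rw [hs.card_image j hG] at hc
  have h1 : ∃ v ∈ G, v ∉ bv d B := by
    by_contra hcon
    push Not at hcon
    have := bdry_card (hs.ind G hG hcon)
    omega
  obtain ⟨v, hv, hvb⟩ := h1
  have h2 : v + (j + 1) * M ≤ (G.image (fj d M B j)).sup id := by
    have : v + (j + 1) * M ∈ G.image (fj d M B j) := by
      refine Finset.mem_image.2 ⟨v, hv, ?_⟩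
      unfold fj
      rw [if_neg hvb]
    exact Finset.le_sup (f := id) this
  have h3 : (G.image (fj d M B j)).sup id < (j + 2) * M := by
    rw [Finset.sup_lt_iff (Nat.mul_pos (Nat.succ_pos _) hM)]
    intro w hw
    obtain ⟨x, hx, rfl⟩ := Finset.mem_image.1 hw
    have hxM : x < M := hs.ltB hG hx
    have e : (j + 2) * M = (j + 1) * M + M := by ring
    have e' : (j + 1).succ * M = (j + 1) * M + M := Nat.succ_mul _ _
    simp only [id]
    unfold fj
    split_ifs <;> omega
  rw [Nat.div_eq_iff hM]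
  have e : (j + 2) * M = (j + 1) * M + M := by ring
  constructor <;> omega

/-- the induced order on a copy which is never responsible is a relative shelling -/
lemma relShell_copy {n : ℕ} (j : ℕ) : ∀ l : List (Finset ℕ), Shell l →
    (∀ F ∈ l, F ∈ (tot d M P B n).faces) →
    (∀ a F b, l = a ++ F :: b → F ∈ (cpy d M B j).faces → ∀ σ ∈ bdry d B, σ ⊆ F →
      ∃ G ∈ b, σ ⊆ G) →
    RelShell (bdry d B) ((l.filter fun F => decide (F ∈ (cpy d M B j).faces)).map
      fun F => F.image (gj M j)) := by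
  classical
  intro l
  induction l with
  | nil => intro _ _ _; trivial
  | cons F l ih =>
    intro hS hT hR
    have ih' := ih hS.1 (fun G hG => hT G (List.mem_cons_of_mem _ hG)) (fun a G b hl => by
      apply hR (F :: a) G b
      rw [hl]; rfl)
    by_cases hF : F ∈ (cpy d M B j).faces
    · rw [List.filter_cons_of_pos (by simpa using hF), List.map_cons]
      refine ⟨ih', ?_⟩
      obtain ⟨F', hF', rfl⟩ := mem_relab.1 hF
      rw [hs.pull_image j hF']
      intro σ hσ h
      -- a facet of `l` containing the image of `σ`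
      have h1 : ∃ G ∈ l, σ.image (fj d M B j) ⊆ G := by
        rcases h with h | ⟨G', hG', hσG⟩
        · rw [hs.image_of_bdry j h]
          apply hR [] _ l rfl hF σ h
          have := Finset.image_subset_image (f := fj d M B j) hσ
          rwa [hs.image_of_bdry j h] at this
        · obtain ⟨G, hG, rfl⟩ := List.mem_map.1 hG'
          rw [List.mem_filter, decide_eq_true_eq] at hG
          obtain ⟨G'', hG'', rfl⟩ := mem_relab.1 hG.2
          rw [hs.pull_image j hG''] at hσG
          exact ⟨_, hG.1, Finset.image_subset_image hσG⟩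
      obtain ⟨G, hG, hσG⟩ := h1
      obtain ⟨H, hH, y, hy, h2, h3⟩ := hS.2 G hG
      obtain ⟨y', hy', rfl⟩ := Finset.mem_image.1 hy
      have herase : (F'.image (fj d M B j)).erase (fj d M B j y') =
          (F'.erase y').image (fj d M B j) := by
        ext z
        rw [Finset.mem_erase, Finset.mem_image, Finset.mem_image]
        constructor
        · rintro ⟨h4, x, hx, rfl⟩
          exact ⟨x, Finset.mem_erase.2 ⟨fun h => h4 (by rw [h]), hx⟩, rfl⟩
        · rintro ⟨x, hx, rfl⟩
          rw [Finset.mem_erase] at hx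
          exact ⟨fun h => hx.1 (hs.fj_injOn j (hs.ltB hF' hx.2) (hs.ltB hF' hy') h), x, hx.2, rfl⟩
      rw [herase] at h2 h3
      have hF'' : F'.erase y' ∈ B.faces := B.down F' hF' _ (Finset.erase_subset _ _)
      have hlift : ∀ T ∈ B.faces, ∀ x < M, fj d M B j x ∈ T.image (fj d M B j) → x ∈ T := by
        intro T hT x hx h
        obtain ⟨z, hz, hzx⟩ := Finset.mem_image.1 h
        rw [← hs.fj_injOn j (hs.ltB hT hz) hx hzx]
        exact hz
      refine ⟨y', hy', ?_, ?_⟩
      · intro x hx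
        have hxF := hσ hx
        apply hlift _ hF'' x (hs.ltB hF' hxF)
        apply h2
        exact Finset.mem_inter.2 ⟨Finset.mem_image_of_mem _ hxF, hσG (Finset.mem_image_of_mem _ hx)⟩
      · by_cases hHj : H ∈ (cpy d M B j).faces
        · right
          obtain ⟨H', hH', rfl⟩ := mem_relab.1 hHj
          refine ⟨H', ?_, ?_⟩
          · rw [List.mem_map]
            refine ⟨H'.image (fj d M B j), ?_, hs.pull_image j hH'⟩
            rw [List.mem_filter, decide_eq_true_eq]
            exact ⟨hH, hHj⟩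
          · intro x hx
            exact hlift _ hH' x (hs.ltB hF'' hx) (h3 (Finset.mem_image_of_mem _ hx))
        · left
          apply hs.mem_bdry_of (j := j) hF''
          rcases mem_tot.1 (hT H (List.mem_cons_of_mem _ hH)) with h4 | ⟨i, _, h4⟩
          · exact Or.inl (P.down H h4 _ h3)
          · right
            refine ⟨i, fun h => hHj (h ▸ h4), (cpy d M B i).down H h4 _ h3⟩
    · rw [List.filter_cons_of_neg (by simpa using hF)]
      exact ih'

/-- **Pigeonhole.** If `B` has no relative shelling, then `P` with more copies of `B` than there are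
boundary faces is not shellable. -/
theorem not_shellable (hM : 0 < M) {n : ℕ} (hn : (bdry d B).card < n)
    (hno : ∀ l : List (Finset ℕ), (∀ F, F ∈ l ↔ IsFacet B F) → ¬ RelShell (bdry d B) l) :
    ¬ Shellable (tot d M P B n) := by
  classical
  rintro ⟨L0, -, hmem0, hsh⟩
  have hS0 := shell_take L0 hsh L0.length le_rfl
  rw [List.take_length] at hS0
  set L := L0.reverse with hL
  have hmem : ∀ F, F ∈ L ↔ F ∈ (tot d M P B n).faces ∧ F.card = d := by
    intro F
    rw [hL, List.mem_reverse, hmem0, isFacet_iff (hs.pure_tot n)]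
  -- the first facet containing `σ`
  let first : Finset ℕ → Finset ℕ := fun σ =>
    ((L.filter fun F => decide (σ ⊆ F)).getLast?).getD ∅
  let c : Finset ℕ → ℕ := fun σ => (first σ).sup id / M
  obtain ⟨j, hj, hjc⟩ : ∃ j < n, j + 1 ∉ (bdry d B).image c := by
    by_contra hcon
    push Not at hcon
    have h1 : (range n).image (fun j => j + 1) ⊆ (bdry d B).image c := by
      intro x hx
      obtain ⟨j, hj, rfl⟩ := Finset.mem_image.1 hx
      exact hcon j (Finset.mem_range.1 hj)
    have h2 := Finset.card_le_card h1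
    rw [Finset.card_image_of_injective _ (fun a b h => by simpa using h), Finset.card_range] at h2
    have h3 := Finset.card_image_le (s := bdry d B) (f := c)
    omega
  have hR : ∀ a F b, L = a ++ F :: b → F ∈ (cpy d M B j).faces → ∀ σ ∈ bdry d B, σ ⊆ F →
      ∃ G ∈ b, σ ⊆ G := by
    intro a F b hab hF σ hσ hσF
    have hFd : F.card = d := ((hmem F).1 (by rw [hab]; simp)).2
    by_contra hcon
    push Not at hcon
    have h1 : L.filter (fun F => decide (σ ⊆ F)) =
        a.filter (fun F => decide (σ ⊆ F)) ++ [F] := by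
      rw [hab, List.filter_append, List.filter_cons_of_pos (by simpa using hσF)]
      congr 2
      rw [List.filter_eq_nil_iff]
      intro G hG
      simpa using hcon G hG
    have h2 : first σ = F := by
      simp only [first, h1]
      rw [List.getLast?_append_of_ne_nil _ (by simp)]
      rfl
    apply hjc
    refine Finset.mem_image.2 ⟨σ, hσ, ?_⟩
    simp only [c, h2]
    exact hs.idx_cpy hM hF hFd
  have hrel := hs.relShell_copy (n := n) j L hS0 (fun F hF => ((hmem F).1 hF).1) hR
  refine hno _ ?_ hrel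
  intro F
  rw [isFacet_iff hs.pureB, List.mem_map]
  constructor
  · rintro ⟨G, hG, rfl⟩
    rw [List.mem_filter, decide_eq_true_eq] at hG
    obtain ⟨G', hG', rfl⟩ := mem_relab.1 hG.2
    rw [hs.pull_image j hG']
    refine ⟨hG', ?_⟩
    rw [← hs.card_image j hG']
    exact ((hmem _).1 hG.1).2
  · rintro ⟨hF, hFd⟩
    refine ⟨F.image (fj d M B j), ?_, hs.pull_image j hF⟩
    rw [List.mem_filter, decide_eq_true_eq, hmem]
    have h1 : F.image (fj d M B j) ∈ (cpy d M B j).faces := mem_relab.2 ⟨F, hF, rfl⟩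
    refine ⟨⟨mem_tot.2 (Or.inr ⟨j, hj, h1⟩), ?_⟩, h1⟩
    rw [hs.card_image j hF, hFd]

end Setup

end Pool.Agent.R140.Ear
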