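import Pool.Agent.R140.Ear.Ears

set_option autoImplicit false

/-!
# Certificates for boundary complexes of simplicial polytopes
-/

open Finset

namespace Pool.Agent.R140.Ear

/-- facets with supporting functionals, and neighbouring facets -/
structure PolyCert (d : ℕ) (V : Finset ℕ) (L : Finset (Finset ℕ)) (p : ℕ → Fin d → ℝ)
    (a : Finset ℕ → (Fin d → ℝ) →ₗ[ℝ] ℝ) : Prop where
  on : ∀ F ∈ L, ∀ v ∈ F, a F (p v) = 1
  off : ∀ F ∈ L, ∀ v ∈ V, v ∉ F → a F (p v) < 1
  nbr : ∀ F ∈ L, ∀ j ∈ F, ∃ F' ∈ L, F.erase j ⊆ F' ∧ j ∉ F'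
  card : ∀ F ∈ L, F.card = d
  sub : ∀ F ∈ L, F ⊆ V
  ne : L.Nonempty
  pos : 0 < d

namespace PolyCert

variable {d : ℕ} {V : Finset ℕ} {L : Finset (Finset ℕ)} {p : ℕ → Fin d → ℝ}
  {a : Finset ℕ → (Fin d → ℝ) →ₗ[ℝ] ℝ} (hc : PolyCert d V L p a)

include hc

lemma le_one {F : Finset ℕ} (hF : F ∈ L) {v : ℕ} (hv : v ∈ V) : a F (p v) ≤ 1 := by
  by_cases h : v ∈ F
  · exact (hc.on F hF v h).le
  · exact (hc.off F hF v hv h).le

/-- evaluation of a difference of neighbouring functionals -/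
lemma diff {F F' : Finset ℕ} (hF : F ∈ L) (hF' : F' ∈ L) {j : ℕ} (hj : j ∈ F)
    (h : F.erase j ⊆ F') (w : ℕ → ℝ) :
    (a F - a F') (∑ k ∈ F, w k • p k) = w j * (1 - a F' (p j)) := by
  rw [map_sum, Finset.sum_eq_single j]
  · rw [map_smul, LinearMap.sub_apply, hc.on F hF j hj, smul_eq_mul]
  · intro k hk hkj
    rw [map_smul, LinearMap.sub_apply, hc.on F hF k hk,
      hc.on F' hF' k (h (Finset.mem_erase.2 ⟨hkj, hk⟩))]
    simp
  · intro h; exact absurd hj h

lemma linInd {F : Finset ℕ} (hF : F ∈ L) : LinearIndependent ℝ (fun k : F => p k) := by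
  rw [Fintype.linearIndependent_iff]
  intro g hg k
  let w : ℕ → ℝ := fun v => if h : v ∈ F then g ⟨v, h⟩ else 0
  have h1 : ∑ k ∈ F, w k • p k = 0 := by
    rw [← Finset.sum_coe_sort F (fun k => w k • p k), ← hg]
    apply Finset.sum_congr rfl
    intro k _
    simp [w]
  obtain ⟨F', hF', h2, h3⟩ := hc.nbr F hF k k.2
  have h4 := hc.diff hF hF' k.2 h2 w
  rw [h1, map_zero] at h4
  have h5 := hc.off F' hF' k (hc.sub F hF k.2) h3
  have h6 : w k = 0 := by
    rcases mul_eq_zero.1 h4.symm with h | h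
    · exact h
    · linarith
  simpa [w] using h6

lemma span {F : Finset ℕ} (hF : F ∈ L) :
    Submodule.span ℝ (Set.range (fun k : F => p k)) = ⊤ := by
  apply (hc.linInd hF).span_eq_top_of_card_eq_finrank'
  rw [Fintype.card_coe, hc.card F hF]
  simp

lemma exists_coeff {F : Finset ℕ} (hF : F ∈ L) (x : Fin d → ℝ) :
    ∃ w : ℕ → ℝ, ∑ k ∈ F, w k • p k = x := by
  have h2 : x ∈ Submodule.span ℝ (Set.range (fun k : F => p k)) := by rw [hc.span hF]; trivial
  rw [Submodule.mem_span_range_iff_exists_fun] at h2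
  obtain ⟨c, hcx⟩ := h2
  refine ⟨fun v => if h : v ∈ F then c ⟨v, h⟩ else 0, ?_⟩
  rw [← Finset.sum_coe_sort F (fun k => (if h : k ∈ F then c ⟨k, h⟩ else 0) • p k), ← hcx]
  apply Finset.sum_congr rfl
  intro k _
  simp

/-- every point is a nonnegative combination of the vertices of a facet which maximizes the
functionals -/
lemma rep (x : Fin d → ℝ) : ∃ F ∈ L, ∃ w : ℕ → ℝ, (∀ k ∈ F, 0 ≤ w k) ∧
    ∑ k ∈ F, w k • p k = x ∧ ∑ k ∈ F, w k = a F x := by
  obtain ⟨F, hF, hmax⟩ := Finset.exists_max_image L (fun F => a F x) hc.ne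
  obtain ⟨w, hw⟩ := hc.exists_coeff hF x
  refine ⟨F, hF, w, ?_, hw, ?_⟩
  · intro j hj
    obtain ⟨F', hF', h1, h2⟩ := hc.nbr F hF j hj
    have h3 := hc.diff hF hF' hj h1 w
    rw [hw, LinearMap.sub_apply] at h3
    have h4 := hmax F' hF'
    have h5 := hc.off F' hF' j (hc.sub F hF hj) h2
    by_contra hneg
    push Not at hneg
    have : w j * (1 - a F' (p j)) < 0 := mul_neg_of_neg_of_pos hneg (by linarith)
    linarith
  · conv_rhs => rw [← hw]
    rw [map_sum]
    apply Finset.sum_congr rfl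
    intro k hk
    rw [map_smul, hc.on F hF k hk, smul_eq_mul, mul_one]

/-- two functionals which agree on the vertices of a facet are equal -/
lemma ext_on {F : Finset ℕ} (hF : F ∈ L) {ℓ ℓ' : (Fin d → ℝ) →ₗ[ℝ] ℝ}
    (h : ∀ v ∈ F, ℓ (p v) = ℓ' (p v)) : ℓ = ℓ' := by
  ext1 i
  ext1
  simp only [LinearMap.coe_comp, Function.comp_apply]
  obtain ⟨w, hw⟩ := hc.exists_coeff hF ((LinearMap.single ℝ (fun _ => ℝ) i) 1)
  rw [← hw, map_sum, map_sum]
  apply Finset.sum_congr rfl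
  intro k hk
  rw [map_smul, map_smul, h k hk]

theorem isPolytopeBoundary (X : Cplx) (hX : ∀ G, G ∈ X.faces ↔ ∃ F ∈ L, G ⊆ F)
    (hV : verts X = V) : IsPolytopeBoundary d p X := by
  classical
  obtain ⟨F₀, hF₀⟩ := hc.ne
  obtain ⟨j₀, hj₀⟩ : F₀.Nonempty := by
    rw [← Finset.card_pos, hc.card F₀ hF₀]; exact hc.pos
  unfold IsPolytopeBoundary
  rw [hV]
  refine ⟨fun ℓ c h => ?_, fun G => ⟨fun hG => ?_, fun hG => ?_⟩⟩
  · have key : ∀ F ∈ L, ℓ = c • a F := by
      intro F hF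
      apply hc.ext_on hF
      intro v hv
      rw [h v (hc.sub F hF hv), LinearMap.smul_apply, hc.on F hF v hv, smul_eq_mul, mul_one]
    obtain ⟨F', hF', h1, h2⟩ := hc.nbr F₀ hF₀ j₀ hj₀
    have h3 := h j₀ (hc.sub F₀ hF₀ hj₀)
    rw [key F' hF', LinearMap.smul_apply, smul_eq_mul] at h3
    have h4 := hc.off F' hF' j₀ (hc.sub F₀ hF₀ hj₀) h2
    have h5 : c * (1 - a F' (p j₀)) = 0 := by linarith
    have h6 : c = 0 := by
      rcases mul_eq_zero.1 h5 with h | h
      · exact h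
      · linarith
    rw [key F₀ hF₀, h6, zero_smul]
  · obtain ⟨F, hF, hGF⟩ := (hX G).1 hG
    refine ⟨?_, ?_⟩
    · refine Finset.ssubset_iff_subset_ne.2 ⟨hGF.trans (hc.sub F hF), ?_⟩
      intro hGV
      obtain ⟨j, hj⟩ : F.Nonempty := by
        rw [← Finset.card_pos, hc.card F hF]; exact hc.pos
      obtain ⟨F', hF', h1, h2⟩ := hc.nbr F hF j hj
      have h3 : F' ⊆ F := (hc.sub F' hF').trans (hGV ▸ hGF)
      have h4 := Finset.eq_of_subset_of_card_le h3 (by rw [hc.card F hF, hc.card F' hF'])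
      rw [h4] at h2
      exact h2 hj
    · have hn : ∀ j ∈ F \ G, ∃ F' ∈ L, F.erase j ⊆ F' ∧ j ∉ F' := fun j hj =>
        hc.nbr F hF j (Finset.mem_sdiff.1 hj).1
      choose! N hN1 hN2 hN3 using hn
      refine ⟨a F + ∑ j ∈ F \ G, a (N j), 1 + (F \ G).card, ?_, ?_⟩
      · intro v hv
        rw [LinearMap.add_apply, LinearMap.sum_apply, hc.on F hF v (hGF hv)]
        rw [Finset.sum_congr rfl (g := fun _ => (1 : ℝ))]
        · simp
        · intro j hj
          apply hc.on _ (hN1 j hj)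
          apply hN2 j hj
          rw [Finset.mem_erase]
          refine ⟨fun h => ?_, hGF hv⟩
          rw [Finset.mem_sdiff] at hj
          exact hj.2 (h ▸ hv)
      · intro v hv hvG
        rw [LinearMap.add_apply, LinearMap.sum_apply]
        have h1 : ∑ j ∈ F \ G, a (N j) (p v) ≤ ∑ j ∈ F \ G, (1 : ℝ) :=
          Finset.sum_le_sum fun j hj => hc.le_one (hN1 j hj) hv
        rw [Finset.sum_const, nsmul_eq_mul, mul_one] at h1
        by_cases hvF : v ∈ F
        · have h2 : ∑ j ∈ F \ G, a (N j) (p v) < ∑ j ∈ F \ G, (1 : ℝ) :=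
            Finset.sum_lt_sum (fun j hj => hc.le_one (hN1 j hj) hv)
              ⟨v, Finset.mem_sdiff.2 ⟨hvF, hvG⟩,
                hc.off _ (hN1 v (Finset.mem_sdiff.2 ⟨hvF, hvG⟩)) v hv
                  (hN3 v (Finset.mem_sdiff.2 ⟨hvF, hvG⟩))⟩
          rw [Finset.sum_const, nsmul_eq_mul, mul_one] at h2
          have h3 := hc.le_one hF hv
          linarith
        · have h3 := hc.off F hF v hv hvF
          linarith
  · obtain ⟨hGV, ℓ, c, hin, hout⟩ := hG
    obtain ⟨u, huV, huG⟩ := Finset.exists_of_ssubset hGV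
    have hle : ∀ v ∈ V, ℓ (p v) ≤ c := by
      intro v hv
      by_cases h : v ∈ G
      · exact (hin v h).le
      · exact (hout v hv h).le
    have hcpos : 0 < c := by
      by_contra hcon
      push Not at hcon
      obtain ⟨F, hF, w, hw0, hw, -⟩ := hc.rep (-p u)
      have h1 : ℓ (-p u) ≤ 0 := by
        rw [← hw, map_sum]
        apply Finset.sum_nonpos
        intro k hk
        rw [map_smul, smul_eq_mul]
        exact mul_nonpos_of_nonneg_of_nonpos (hw0 k hk) ((hle k (hc.sub F hF hk)).trans hcon)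
      rw [map_neg] at h1
      have h2 := hout u huV huG
      linarith
    obtain ⟨F, hF, w, hw0, hw, hws⟩ := hc.rep (∑ v ∈ G, p v)
    have h1 : (G.card : ℝ) * c ≤ c * a F (∑ v ∈ G, p v) := by
      have h2 : ℓ (∑ v ∈ G, p v) = G.card * c := by
        rw [map_sum, Finset.sum_congr rfl hin, Finset.sum_const, nsmul_eq_mul]
      rw [← h2, ← hws]
      conv_lhs => rw [← hw]
      rw [map_sum, Finset.mul_sum]
      apply Finset.sum_le_sum
      intro k hk
      rw [map_smul, smul_eq_mul, mul_comm c]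
      exact mul_le_mul_of_nonneg_left (hle k (hc.sub F hF hk)) (hw0 k hk)
    have h3 : (G.card : ℝ) ≤ a F (∑ v ∈ G, p v) := by
      rw [mul_comm] at h1
      exact le_of_mul_le_mul_left h1 hcpos
    refine (hX G).2 ⟨F, hF, fun v hv => ?_⟩
    by_contra hvF
    have h4 : a F (∑ v ∈ G, p v) < G.card := by
      rw [map_sum]
      have h5 : ∑ v ∈ G, a F (p v) < ∑ v ∈ G, (1 : ℝ) :=
        Finset.sum_lt_sum (fun j hj => hc.le_one hF (hGV.1 hj))
          ⟨v, hv, hc.off F hF v (hGV.1 hv) hvF⟩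
      rw [Finset.sum_const, nsmul_eq_mul, mul_one] at h5
      exact h5
    linarith

end PolyCert

end Pool.Agent.R140.Ear
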